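import Pool.Agent.Work.MP_814647_an.PS.Geo2
import Pool.Agent.Work.MP_814647_an.ProjStatement

/-!
# Products of diffeomorphisms: the notions in the statement
-/

open Set Filter Topology
open scoped Manifold ContDiff

noncomputable section

namespace Pool.Agent.OmegaStability

/-- The bijection `φ` sends the map `f` to the product map `f₁ × f₂`. -/
def IntertwinesWithProduct {N₁ N₂ M : Type*} (φ : M ≃ N₁ × N₂) (f : M → M) (f₁ : N₁ → N₁)
    (f₂ : N₂ → N₂) : Prop :=
  ∀ x, φ (f x) = (f₁ (φ x).1, f₂ (φ x).2)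

section

variable {E₁ E₂ E : Type*} [NormedAddCommGroup E₁] [NormedSpace ℝ E₁]
  [NormedAddCommGroup E₂] [NormedSpace ℝ E₂] [NormedAddCommGroup E] [NormedSpace ℝ E]
  {N₁ N₂ M : Type*} [MetricSpace N₁] [ChartedSpace E₁ N₁]
  [MetricSpace N₂] [ChartedSpace E₂ N₂] [MetricSpace M] [ChartedSpace E M]

/-- `f` is the product of `f₁` and `f₂`: there is a `C^∞` diffeomorphism from `M` to `N₁ × N₂`
which sends `f` to `f₁ × f₂`. -/
def IsProductOf {r : ℕ∞} (f : Diffeo E M r) (f₁ : Diffeo E₁ N₁ r) (f₂ : Diffeo E₂ N₂ r) : Prop :=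
  ∃ Φ : Diffeomorph 𝓘(ℝ, E) (𝓘(ℝ, E₁).prod 𝓘(ℝ, E₂)) M (N₁ × N₂) ∞,
    IntertwinesWithProduct Φ.toEquiv f f₁ f₂

/-- The nonwandering set of `f` is infinite. -/
def InfiniteOmega {r : ℕ∞} (f : Diffeo E M r) : Prop := (Omega f).Infinite

/-- The diffeomorphism `f` has a transverse homoclinic orbit. -/
def HasHomoclinicOrbit [IsManifold 𝓘(ℝ, E) ∞ M] {r : ℕ∞} (f : Diffeo E M r) : Prop :=
  HasTransverseHomoclinicOrbit E f f.symm

end

/-- The closed smooth manifolds (of any dimension, with a metric inducing the topology). -/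
structure ClosedManifold where
  dim : ℕ
  carrier : Type*
  [metric : MetricSpace carrier]
  [compact : CompactSpace carrier]
  [charted : ChartedSpace (EuclideanSpace ℝ (Fin dim)) carrier]
  [smooth : IsManifold 𝓘(ℝ, EuclideanSpace ℝ (Fin dim)) ∞ carrier]

attribute [instance] ClosedManifold.metric ClosedManifold.compact ClosedManifold.charted
  ClosedManifold.smooth

/-- The `C^r` diffeomorphisms of the closed manifold `M`. -/
abbrev CrDiffeo (M : ClosedManifold) (r : ℕ∞) : Type _ :=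
  Diffeo (EuclideanSpace ℝ (Fin M.dim)) M.carrier r

end Pool.Agent.OmegaStability
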