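import Pool.Agent.Work.MP_814647_an.PS.Defs
import Pool.Agent.Work.MP_814647_an.Linear

/-!
# Products: a family of hyperbolic maps which contracts a subspace at time zero contracts it always
-/

open Set Filter Topology Function

noncomputable section

namespace Pool.Agent.OmegaPS

open Pool.Agent.OmegaStab (HypLin)

namespace Cross

open Polynomial

variable {V : Type*} [NormedAddCommGroup V] [InnerProductSpace ℝ V] [FiniteDimensional ℝ V]

/-- the compression to `W` -/
def R (W : Submodule ℝ V) (D : V →L[ℝ] V) : W →ₗ[ℝ] W :=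
  (W.orthogonalProjectionOnto : V →ₗ[ℝ] W) ∘ₗ (D : V →ₗ[ℝ] V) ∘ₗ W.subtype

theorem R_coe (W : Submodule ℝ V) (D : V →L[ℝ] V) (h : ∀ v ∈ W, D v ∈ W) (u : W) :
    ((R W D u : W) : V) = D u := by
  have h1 := h u u.2
  have h2 : W.orthogonalProjectionOnto (D u) = ⟨D u, h1⟩ :=
    Submodule.orthogonalProjectionOnto_mem_subspace_eq_self (⟨D u, h1⟩ : W)
  show ((W.orthogonalProjectionOnto (D u) : W) : V) = D u
  rw [h2]

/-- the complex matrix of the compression -/
def A (W : Submodule ℝ V) (D : V →L[ℝ] V) :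
    Matrix (Fin (Module.finrank ℝ W)) (Fin (Module.finrank ℝ W)) ℂ :=
  (LinearMap.toMatrix (Module.finBasis ℝ W) (Module.finBasis ℝ W) (R W D)).map
    (algebraMap ℝ ℂ)

theorem continuous_A (W : Submodule ℝ V) : Continuous (A W) := by
  have h1 : Continuous fun D : V →L[ℝ] V => LinearMap.toMatrix (Module.finBasis ℝ W)
      (Module.finBasis ℝ W) (R W D) := by
    let Φ : (V →L[ℝ] V) →ₗ[ℝ]
        Matrix (Fin (Module.finrank ℝ W)) (Fin (Module.finrank ℝ W)) ℝ :=
      { toFun := fun D => LinearMap.toMatrix (Module.finBasis ℝ W) (Module.finBasis ℝ W) (R W D)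
        map_add' := fun D E => by
          rw [← map_add]; congr 1
          ext u
          simp [R]
        map_smul' := fun c D => by
          rw [RingHom.id_apply, ← map_smul]; congr 1
          ext u
          simp [R] }
    exact LinearMap.continuous_of_finiteDimensional Φ
  exact h1.matrix_map (by exact Complex.continuous_ofReal)

/-- the determinant `det (1 - w A)` -/
def q (W : Submodule ℝ V) (D : V →L[ℝ] V) (w : ℂ) : ℂ := (1 - w • A W D).det

theorem q_eq (W : Submodule ℝ V) (D : V →L[ℝ] V) {w : ℂ} (hw : w ≠ 0) :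
    q W D w = w ^ Module.finrank ℝ W * (A W D).charpoly.eval w⁻¹ := by
  rw [Matrix.eval_charpoly, q]
  have e : (1 - w • A W D) = w • (Matrix.scalar _ w⁻¹ - A W D) := by
    rw [smul_sub]
    congr 1
    ext i j
    by_cases hij : i = j
    · subst hij; simp [hw]
    · simp [hij]
  rw [e, Matrix.det_smul, Fintype.card_fin]

theorem charpoly_A (W : Submodule ℝ V) (D : V →L[ℝ] V) :
    (A W D).charpoly = (R W D).charpoly.map (algebraMap ℝ ℂ) := by
  rw [A, Matrix.charpoly_map, LinearMap.charpoly_toMatrix]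

/-- a root gives an eigenpair in `W` -/
theorem exists_pair (W : Submodule ℝ V) (D : V →L[ℝ] V) (h : ∀ v ∈ W, D v ∈ W) {z : ℂ}
    (hz : (A W D).charpoly.eval z = 0) :
    ∃ v w : V, v ∈ W ∧ w ∈ W ∧ (v ≠ 0 ∨ w ≠ 0) ∧ D v = z.re • v - z.im • w ∧
      D w = z.im • v + z.re • w := by
  rw [Matrix.eval_charpoly] at hz
  obtain ⟨x, hx0, hx⟩ := Matrix.exists_mulVec_eq_zero_iff.2 hz
  set b := Module.finBasis ℝ W with hb
  set M := LinearMap.toMatrix b b (R W D) with hM
  have hAx : ∀ i, ∑ j, (M i j : ℂ) * x j = z * x i := by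
    intro i
    have h1 := congrFun hx i
    rw [Matrix.sub_mulVec] at h1
    have h2 : ((Matrix.scalar (Fin (Module.finrank ℝ W))) z).mulVec x i = z * x i := by
      simp [Matrix.scalar_apply, Matrix.mulVec_diagonal]
    have h3 : (A W D).mulVec x i = ∑ j, (M i j : ℂ) * x j := by
      simp [A, Matrix.mulVec, dotProduct, hM, hb]
    rw [Pi.sub_apply, h2, h3, Pi.zero_apply, sub_eq_zero] at h1
    exact h1.symm
  set v : W := ∑ j, (x j).re • b j with hv
  set w : W := ∑ j, (x j).im • b j with hw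
  have hR : ∀ y : Fin (Module.finrank ℝ W) → ℝ, R W D (∑ j, y j • b j) =
      ∑ i, (∑ j, M i j * y j) • b i := by
    intro y
    rw [map_sum]
    have h1 : ∀ j, R W D (b j) = ∑ i, M i j • b i := by
      intro j
      rw [hM]
      conv_lhs => rw [← b.sum_repr (R W D (b j))]
      exact Finset.sum_congr rfl fun i _ => by rw [LinearMap.toMatrix_apply]
    simp only [map_smul, h1, Finset.smul_sum, Finset.sum_smul, smul_smul]
    rw [Finset.sum_comm]
    exact Finset.sum_congr rfl fun i _ => Finset.sum_congr rfl fun j _ => by rw [mul_comm]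
  have hre : ∀ i, ∑ j, M i j * (x j).re = z.re * (x i).re - z.im * (x i).im := by
    intro i
    have h1 := congrArg Complex.re (hAx i)
    rw [Complex.re_sum, Complex.mul_re] at h1
    rw [← h1]
    exact Finset.sum_congr rfl fun j _ => by simp
  have him : ∀ i, ∑ j, M i j * (x j).im = z.re * (x i).im + z.im * (x i).re := by
    intro i
    have h1 := congrArg Complex.im (hAx i)
    rw [Complex.im_sum, Complex.mul_im] at h1
    rw [← h1]
    exact Finset.sum_congr rfl fun j _ => by simp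
  have e1 : R W D v = z.re • v - z.im • w := by
    rw [hv, hw, hR, Finset.smul_sum, Finset.smul_sum, ← Finset.sum_sub_distrib]
    refine Finset.sum_congr rfl fun i _ => ?_
    rw [hre i, smul_smul, smul_smul, sub_smul]
  have e2 : R W D w = z.im • v + z.re • w := by
    rw [hv, hw, hR, Finset.smul_sum, Finset.smul_sum, ← Finset.sum_add_distrib]
    refine Finset.sum_congr rfl fun i _ => ?_
    rw [him i, smul_smul, smul_smul, add_smul, add_comm]
  refine ⟨v, w, v.2, w.2, ?_, ?_, ?_⟩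
  · by_contra hcon
    push Not at hcon
    obtain ⟨h1, h2⟩ := hcon
    apply hx0
    have h1' : v = 0 := by exact_mod_cast h1
    have h2' : w = 0 := by exact_mod_cast h2
    have g1 := Fintype.linearIndependent_iff.1 b.linearIndependent _ h1'
    have g2 := Fintype.linearIndependent_iff.1 b.linearIndependent _ h2'
    ext i
    exact Complex.ext (g1 i) (g2 i)
  · rw [← R_coe W D h v, e1]; rfl
  · rw [← R_coe W D h w, e2]; rfl

theorem q_ne_of_hyp (W : Submodule ℝ V) (D : V →L[ℝ] V) (h : ∀ v ∈ W, D v ∈ W)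
    (hyp : HypLin D) {w : ℂ} (hw : ‖w‖ = 1) : q W D w ≠ 0 := by
  have hw0 : w ≠ 0 := by
    rintro rfl; simp at hw
  intro hq
  rw [q_eq W D hw0] at hq
  have hz : (A W D).charpoly.eval w⁻¹ = 0 := by
    rcases mul_eq_zero.1 hq with h1 | h1
    · exact absurd h1 (pow_ne_zero _ hw0)
    · exact h1
  obtain ⟨v, u, _, _, hvu, hv, hu⟩ := exists_pair W D h hz
  have h1 := Complex.norm_mul_cos_arg w⁻¹
  have h2 := Complex.norm_mul_sin_arg w⁻¹
  rw [norm_inv, hw, inv_one, one_mul] at h1 h2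
  rw [← h1, ← h2] at hv hu
  obtain ⟨h3, h4⟩ := hyp _ v u hv hu
  rcases hvu with h5 | h5
  · exact h5 h3
  · exact h5 h4

theorem q_ne_of_decay (W : Submodule ℝ V) (D : V →L[ℝ] V) (h : ∀ v ∈ W, D v ∈ W)
    (h0 : ∀ v ∈ W, Tendsto (fun n : ℕ => (D ^ n) v) atTop (𝓝 0)) {w : ℂ} (hw : ‖w‖ ≤ 1) :
    q W D w ≠ 0 := by
  by_cases hw0 : w = 0
  · rw [hw0, q]; simp
  intro hq
  rw [q_eq W D hw0] at hq
  have hz : (A W D).charpoly.eval w⁻¹ = 0 := by
    rcases mul_eq_zero.1 hq with h1 | h1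
    · exact absurd h1 (pow_ne_zero _ hw0)
    · exact h1
  obtain ⟨v, u, hvW, huW, hvu, hv, hu⟩ := exists_pair W D h hz
  set z := w⁻¹ with hzdef
  set φ := OmegaStab.LinAux.pairMap v u with hφ
  have hφW : ∀ y, φ y ∈ W := fun y => by
    rw [hφ, OmegaStab.LinAux.pairMap_apply]
    exact W.sub_mem (W.smul_mem _ hvW) (W.smul_mem _ huW)
  have hT : ∀ n : ℕ, ∀ y, (D ^ n) (φ y) = φ (z ^ n * y) := by
    intro n
    induction n with
    | zero => intro y; simp
    | succ n ih =>
      intro y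
      have h1 := OmegaStab.LinAux.pairMap_intertw (D : Module.End ℝ V) v u z hv hu y
      have h2 : D (φ y) = φ (z * y) := h1
      rw [pow_succ, mul_apply_eq_comp, h2, ih, pow_succ, mul_assoc]
  have lim : ∀ y, Tendsto (fun n : ℕ => ‖φ (z ^ n * y)‖) atTop (𝓝 0) := by
    intro y
    have h1 := (h0 _ (hφW y)).norm
    rw [norm_zero] at h1
    simpa only [hT] using h1
  -- `φ y` is bounded by the two sequences
  have key : ∀ y : ℂ, φ y = 0 := by
    intro y
    have h1 : ∀ n : ℕ, ‖φ y‖ ≤ ‖φ (z ^ n * y)‖ + ‖φ (z ^ n * (Complex.I * y))‖ := by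
      intro n
      have hzn : z ^ n ≠ 0 := pow_ne_zero _ (inv_ne_zero hw0)
      set a := (z ^ n)⁻¹ with ha
      have hna : ‖a‖ ≤ 1 := by
        rw [ha, hzdef, inv_pow, inv_inv, norm_pow]
        exact pow_le_one₀ (norm_nonneg _) hw
      have e : y = (a.re : ℂ) * (z ^ n * y) + (a.im : ℂ) * (z ^ n * (Complex.I * y)) := by
        have e1 : ((a.re : ℂ) + (a.im : ℂ) * Complex.I) = a := Complex.re_add_im a
        calc y = a * z ^ n * y := by rw [ha, inv_mul_cancel₀ hzn, one_mul]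
          _ = ((a.re : ℂ) + (a.im : ℂ) * Complex.I) * z ^ n * y := by rw [e1]
          _ = _ := by ring
      have e2 : φ y = a.re • φ (z ^ n * y) + a.im • φ (z ^ n * (Complex.I * y)) := by
        conv_lhs => rw [e]
        rw [map_add, ← Complex.real_smul, ← Complex.real_smul, map_smul, map_smul]
      rw [e2]
      refine (norm_add_le _ _).trans ?_
      rw [norm_smul, norm_smul]
      have h3 : ‖a.re‖ ≤ 1 := (Complex.abs_re_le_norm a).trans hna
      have h4 : ‖a.im‖ ≤ 1 := (Complex.abs_im_le_norm a).trans hna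
      exact add_le_add (mul_le_of_le_one_left (norm_nonneg _) h3)
        (mul_le_of_le_one_left (norm_nonneg _) h4)
    have h2 := (lim y).add (lim (Complex.I * y))
    rw [add_zero] at h2
    have h3 := ge_of_tendsto' h2 h1
    exact norm_le_zero_iff.1 h3
  have k1 := key 1
  have k2 := key Complex.I
  rw [hφ, OmegaStab.LinAux.pairMap_apply] at k1 k2
  simp only [Complex.one_re, one_smul, Complex.one_im, zero_smul, sub_zero, Complex.I_re,
    Complex.I_im, zero_sub, neg_eq_zero] at k1 k2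
  rcases hvu with h5 | h5
  · exact h5 k1
  · exact h5 k2

theorem pow_card_le_prod' (c : ℝ) (hc : 0 ≤ c) (w : ℂ) :
    ∀ s : Multiset ℂ, (∀ r ∈ s, c ≤ ‖w - r‖) → c ^ Multiset.card s ≤
      ‖(s.map fun r => w - r).prod‖ := by
  intro s
  induction s using Multiset.induction_on with
  | empty => intro _; simp
  | cons a s ih =>
    intro h
    rw [Multiset.card_cons, pow_succ, Multiset.map_cons, Multiset.prod_cons, norm_mul, mul_comm]
    exact mul_le_mul (h a (Multiset.mem_cons_self a s))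
      (ih fun r hr => h r (Multiset.mem_cons_of_mem hr)) (pow_nonneg hc _) (norm_nonneg _)

/-- lower bound of `q` inside the disk -/
theorem q_lower (W : Submodule ℝ V) (D : V →L[ℝ] V) (h : ∀ w : ℂ, ‖w‖ ≤ 1 → q W D w ≠ 0)
    {w : ℂ} (hw : ‖w‖ < 1) : (1 - ‖w‖) ^ Module.finrank ℝ W ≤ ‖q W D w‖ := by
  by_cases hw0 : w = 0
  · rw [hw0, q]; simp
  have hroots : ∀ r ∈ (A W D).charpoly.roots, ‖r‖ < 1 := by
    intro r hr
    by_contra hcon
    push Not at hcon
    have hr0 : r ≠ 0 := by rintro rfl; simp at hcon; linarith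
    have h1 : (A W D).charpoly.eval r = 0 :=
      (mem_roots'.1 hr).2
    apply h r⁻¹ (by rw [norm_inv]; exact inv_le_one_of_one_le₀ hcon)
    rw [q_eq W D (inv_ne_zero hr0), inv_inv, h1, mul_zero]
  have hcard : Multiset.card (A W D).charpoly.roots = Module.finrank ℝ W := by
    rw [IsAlgClosed.card_roots_eq_natDegree, Matrix.charpoly_natDegree_eq_dim, Fintype.card_fin]
  have hsplit : (A W D).charpoly.eval w⁻¹ =
      ((A W D).charpoly.roots.map fun r => w⁻¹ - r).prod := by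
    have h1 := (IsAlgClosed.splits (A W D).charpoly).eq_prod_roots_of_monic
      (Matrix.charpoly_monic _)
    conv_lhs => rw [h1]
    rw [eval_multiset_prod, Multiset.map_map]
    simp
  have hlow := pow_card_le_prod' (‖w‖⁻¹ - 1)
    (by rw [sub_nonneg]; exact (one_le_inv₀ (norm_pos_iff.2 hw0)).2 hw.le) w⁻¹
    (A W D).charpoly.roots (fun r hr => by
      have h1 := norm_sub_norm_le w⁻¹ r
      rw [norm_inv] at h1
      linarith [hroots r hr])
  rw [hcard] at hlow
  rw [q_eq W D hw0, norm_mul, norm_pow, hsplit]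
  calc (1 - ‖w‖) ^ Module.finrank ℝ W
      = ‖w‖ ^ Module.finrank ℝ W * (‖w‖⁻¹ - 1) ^ Module.finrank ℝ W := by
        rw [← mul_pow, mul_sub, mul_inv_cancel₀ (norm_ne_zero_iff.2 hw0), mul_one]
    _ ≤ _ := mul_le_mul_of_nonneg_left hlow (pow_nonneg (norm_nonneg _) _)

theorem aeval_coe (W : Submodule ℝ V) (D : V →L[ℝ] V) (h : ∀ v ∈ W, D v ∈ W) (P : ℝ[X]) :
    ∀ u : W, aeval (D : Module.End ℝ V) P (u : V) = ((aeval (R W D) P u : W) : V) := by
  induction P using Polynomial.induction_on with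
  | C a =>
    intro u
    rw [aeval_C, aeval_C, Module.algebraMap_end_apply, Module.algebraMap_end_apply]; rfl
  | add p r hp hr =>
    intro u
    rw [map_add, map_add, LinearMap.add_apply, LinearMap.add_apply, hp, hr]; rfl
  | monomial n a ih =>
    intro u
    have e : (C a * X ^ (n + 1) : ℝ[X]) = C a * X ^ n * X := by ring
    rw [e, map_mul (aeval (D : Module.End ℝ V)) (C a * X ^ n),
      map_mul (aeval (R W D)) (C a * X ^ n), aeval_X, aeval_X, Module.End.mul_apply,
      Module.End.mul_apply]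
    have h1 : (D : Module.End ℝ V) (u : V) = ((R W D u : W) : V) := (R_coe W D h u).symm
    rw [h1, ih]

theorem tendsto_of_q (W : Submodule ℝ V) (D : V →L[ℝ] V) (h : ∀ v ∈ W, D v ∈ W)
    (hq : ∀ w : ℂ, ‖w‖ ≤ 1 → q W D w ≠ 0) {v : V} (hv : v ∈ W) :
    Tendsto (fun n : ℕ => (D ^ n) v) atTop (𝓝 0) := by
  have hmon : (R W D).charpoly.Monic := LinearMap.charpoly_monic _
  obtain ⟨C, μ, hC, hμ0, hμ1, hdec⟩ := OmegaStab.LinAux.decay D (R W D).charpoly hmon.ne_zero
    (by
      intro z hz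
      by_contra hcon
      push Not at hcon
      have hz0 : z ≠ 0 := by rintro rfl; simp at hcon; linarith
      apply hq z⁻¹ (by rw [norm_inv]; exact inv_le_one_of_one_le₀ hcon)
      rw [q_eq W D (inv_ne_zero hz0), inv_inv, charpoly_A, eval_map_algebraMap, hz, mul_zero])
  have hker : v ∈ LinearMap.ker (aeval (D : Module.End ℝ V) (R W D).charpoly) := by
    rw [LinearMap.mem_ker]
    have h1 := aeval_coe W D h (R W D).charpoly ⟨v, hv⟩
    rw [LinearMap.aeval_self_charpoly] at h1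
    exact h1
  refine squeeze_zero_norm (hdec v hker) ?_
  have h1 : Tendsto (fun n : ℕ => C * μ ^ n * ‖v‖) atTop (𝓝 (C * 0 * ‖v‖)) :=
    ((tendsto_pow_atTop_nhds_zero_of_lt_one hμ0.le hμ1).const_mul C).mul_const _
  simpa using h1

end Cross

section Lin

variable {V : Type*} [NormedAddCommGroup V] [InnerProductSpace ℝ V] [FiniteDimensional ℝ V]

/-! LA2 -/
theorem cross (W : Submodule ℝ V) (F : ℝ → V →L[ℝ] V) (hF : ContinuousOn F (Icc 0 1))
    (inv : ∀ s ∈ Icc (0 : ℝ) 1, ∀ v ∈ W, F s v ∈ W) (hyp : ∀ s ∈ Icc (0 : ℝ) 1, HypLin (F s))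
    (h0 : ∀ v ∈ W, Tendsto (fun n : ℕ => (F 0 ^ n) v) atTop (𝓝 0)) :
    ∀ s ∈ Icc (0 : ℝ) 1, ∀ v ∈ W, Tendsto (fun n : ℕ => (F s ^ n) v) atTop (𝓝 0) := by
  have hA : ContinuousOn (fun s => Cross.A W (F s)) (Icc 0 1) :=
    (Cross.continuous_A W).comp_continuousOn hF
  have hq : ContinuousOn (fun p : ℝ × ℂ => Cross.q W (F p.1) p.2) (Icc 0 1 ×ˢ univ) := by
    have h1 : ContinuousOn (fun p : ℝ × ℂ => Cross.A W (F p.1)) (Icc 0 1 ×ˢ univ) :=
      hA.comp continuousOn_fst (fun p hp => hp.1)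
    have h2 : ContinuousOn (fun p : ℝ × ℂ => (1 : Matrix _ _ ℂ) - p.2 • Cross.A W (F p.1))
        (Icc 0 1 ×ˢ univ) := continuousOn_const.sub (continuousOn_snd.smul h1)
    exact (Continuous.matrix_det continuous_id).comp_continuousOn h2
  -- the set of good parameters
  let T : Set ℝ := {s | s ∈ Icc (0 : ℝ) 1 ∧ ∀ w : ℂ, ‖w‖ < 1 →
    (1 - ‖w‖) ^ Module.finrank ℝ W ≤ ‖Cross.q W (F s) w‖}
  let C : Set ℝ := Prod.fst '' {p : ℝ × ℂ | p ∈ Icc (0 : ℝ) 1 ×ˢ Metric.closedBall (0 : ℂ) 1 ∧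
    Cross.q W (F p.1) p.2 = 0}
  have hTC : ∀ s ∈ T, ∀ w : ℂ, ‖w‖ ≤ 1 → Cross.q W (F s) w ≠ 0 := by
    intro s hs w hw
    rcases lt_or_eq_of_le hw with h1 | h1
    · intro h2
      have h3 := hs.2 w h1
      rw [h2, norm_zero] at h3
      have h4 : 0 < (1 - ‖w‖) ^ Module.finrank ℝ W := pow_pos (by linarith) _
      linarith
    · exact Cross.q_ne_of_hyp W (F s) (inv s hs.1) (hyp s hs.1) h1
  have hTclosed : IsClosed T := by
    have e : T = ⋂ w : ℂ, ⋂ _ : ‖w‖ < 1, {s | s ∈ Icc (0 : ℝ) 1 ∧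
        (1 - ‖w‖) ^ Module.finrank ℝ W ≤ ‖Cross.q W (F s) w‖} := by
      ext s
      simp only [T, mem_iInter]
      constructor
      · intro h w hw
        exact ⟨h.1, h.2 w hw⟩
      · intro h
        exact ⟨(h 0 (by simp)).1, fun w hw => (h w hw).2⟩
    rw [e]
    refine isClosed_iInter fun w => isClosed_iInter fun _ => ?_
    have h1 : ContinuousOn (fun s => ‖Cross.q W (F s) w‖) (Icc (0 : ℝ) 1) :=
      (hq.comp (f := fun s : ℝ => (s, w)) (by fun_prop) (fun s hs => ⟨hs, mem_univ _⟩)).norm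
    exact h1.preimage_isClosed_of_isClosed isClosed_Icc isClosed_Ici
  have hCclosed : IsClosed C := by
    refine (IsCompact.image ?_ continuous_fst).isClosed
    have hK : IsCompact (Icc (0 : ℝ) 1 ×ˢ Metric.closedBall (0 : ℂ) 1) :=
      isCompact_Icc.prod (isCompact_closedBall _ _)
    have h1 : ContinuousOn (fun p : ℝ × ℂ => Cross.q W (F p.1) p.2)
        (Icc (0 : ℝ) 1 ×ˢ Metric.closedBall (0 : ℂ) 1) :=
      hq.mono (prod_mono_right (subset_univ _))
    exact hK.of_isClosed_subset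
      (h1.preimage_isClosed_of_isClosed hK.isClosed isClosed_singleton) (fun p hp => hp.1)
  have hcover : Icc (0 : ℝ) 1 ⊆ T ∪ C := by
    intro s hs
    by_cases h1 : ∃ w : ℂ, ‖w‖ ≤ 1 ∧ Cross.q W (F s) w = 0
    · obtain ⟨w, hw, hqw⟩ := h1
      exact Or.inr ⟨(s, w), ⟨⟨hs, by simpa using hw⟩, hqw⟩, rfl⟩
    · push Not at h1
      exact Or.inl ⟨hs, fun w hw => Cross.q_lower W (F s) h1 hw⟩
  have h0T : (0 : ℝ) ∈ T :=
    ⟨left_mem_Icc.2 zero_le_one, fun w hw => Cross.q_lower W (F 0)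
      (fun w hw => Cross.q_ne_of_decay W (F 0) (inv 0 (left_mem_Icc.2 zero_le_one)) h0 hw) hw⟩
  have hdisj : Icc (0 : ℝ) 1 ∩ (T ∩ C) = ∅ := by
    ext s
    simp only [mem_inter_iff, mem_empty_iff_false, iff_false]
    rintro ⟨_, hsT, ⟨⟨s', w⟩, ⟨⟨_, hw⟩, hqw⟩, rfl⟩⟩
    exact hTC _ hsT w (by simpa using hw) hqw
  have hall : ∀ s ∈ Icc (0 : ℝ) 1, s ∈ T := by
    intro s hs
    rcases hcover hs with h1 | h1
    · exact h1
    · exfalso
      have h2 := isPreconnected_closed_iff.1 (isPreconnected_Icc (a := (0 : ℝ)) (b := 1)) T C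
        hTclosed hCclosed hcover ⟨0, left_mem_Icc.2 zero_le_one, h0T⟩ ⟨s, hs, h1⟩
      rw [hdisj] at h2
      exact not_nonempty_empty h2
  intro s hs v hv
  exact Cross.tendsto_of_q W (F s) (inv s hs) (hTC s (hall s hs)) hv

end Lin

end Pool.Agent.OmegaPS
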