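import Pool.Agent.Work.MP_814647_an.Basic

/-!
# Products: linear notions and abstract cocycles with transitions
-/

open Set Filter Topology Function

noncomputable section

namespace Pool.Agent.OmegaPS

open Pool.Agent.OmegaStab (HypLin)

section Lin

variable {V : Type*} [NormedAddCommGroup V] [InnerProductSpace ℝ V]

/-- Multiplication by `exp s`. -/
def sc (s : ℝ) : V ≃L[ℝ] V :=
  ContinuousLinearEquiv.equivOfInverse (Real.exp s • ContinuousLinearMap.id ℝ V)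
    (Real.exp (-s) • ContinuousLinearMap.id ℝ V)
    (fun v => by simp [smul_smul, ← Real.exp_add])
    (fun v => by simp [smul_smul, ← Real.exp_add])

theorem sc_apply (s : ℝ) (v : V) : (sc s : V ≃L[ℝ] V) v = Real.exp s • v := rfl

/-- `P` has no complex eigenvalue of modulus one. -/
def Hyp (P : V ≃L[ℝ] V) : Prop := HypLin (P : V →L[ℝ] V)

/-- `L` is close to the identity. -/
def Near (c : ℝ) (L : V ≃L[ℝ] V) : Prop :=
  ‖(L : V →L[ℝ] V) - ContinuousLinearMap.id ℝ V‖ ≤ c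

/-- The vectors whose forward images tend to zero. -/
def Est (P : V ≃L[ℝ] V) : Submodule ℝ V where
  carrier := {v | Tendsto (fun n : ℕ => (P ^ n) v) atTop (𝓝 0)}
  add_mem' := by
    intro v w hv hw
    have := hv.add hw
    simpa using this
  zero_mem' := by simp
  smul_mem' := by
    intro c v hv
    have := hv.const_smul c
    simpa using this

theorem mem_Est {P : V ≃L[ℝ] V} {v : V} :
    v ∈ Est P ↔ Tendsto (fun n : ℕ => (P ^ n) v) atTop (𝓝 0) := Iff.rfl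

/-- The vectors whose backward images tend to zero. -/
def Eun (P : V ≃L[ℝ] V) : Submodule ℝ V := Est P⁻¹

/-- All words `R Y^b L X^a`, `L X^a` and `L Y^b` with `L`, `R` close to the identity are
hyperbolic, also after multiplication by `exp (η * length)` for small `η`. -/
structure PairHyp (X Y : V ≃L[ℝ] V) (α β c δ : ℝ) : Prop where
  xx : ∀ a : ℕ, 1 ≤ a → ∀ η : ℝ, |η| ≤ δ → ∀ L, Near c L → Hyp (sc (η * (a * α)) * (L * X ^ a))
  yy : ∀ b : ℕ, 1 ≤ b → ∀ η : ℝ, |η| ≤ δ → ∀ L, Near c L → Hyp (sc (η * (b * β)) * (L * Y ^ b))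
  xy : ∀ a b : ℕ, 1 ≤ a → 1 ≤ b → ∀ η : ℝ, |η| ≤ δ → ∀ L R, Near c L → Near c R →
    Hyp (sc (η * (a * α + b * β)) * (R * Y ^ b * L * X ^ a))

end Lin

section Abstract

variable (X V : Type*) [NormedAddCommGroup V] [InnerProductSpace ℝ V]

/-- A linear cocycle over a permutation, with a finite colouring of the points and a family of
allowed transitions between points. -/
structure Sys where
  f : Equiv.Perm X
  a : X → V ≃L[ℝ] V
  K : ℝ
  one_le_K : 1 ≤ K
  norm_a : ∀ y, ‖(a y : V →L[ℝ] V)‖ ≤ K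
  norm_a' : ∀ y, ‖((a y)⁻¹ : V ≃L[ℝ] V).toContinuousLinearMap‖ ≤ K
  κ : Type
  fin : Finite κ
  cell : X → κ
  c : ℝ
  c_pos : 0 < c
  c_le : c ≤ 1 / 2
  Tr : X → X → (V ≃L[ℝ] V) → Prop
  norm_Tr : ∀ z y D, Tr z y D → ‖(D : V →L[ℝ] V)‖ ≤ K ∧ ‖(D⁻¹ : V ≃L[ℝ] V).toContinuousLinearMap‖ ≤ K
  tr_cell : ∀ z y D, cell z = cell y → Near c D → Tr z y D

/-- A transition: from the point `src` to the point `tgt`, with matrix `mat`. -/
structure Trans where
  src : X
  tgt : X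
  mat : V ≃L[ℝ] V

variable {X V}

/-- The reversed transition. -/
def Trans.inv (t : Trans X V) : Trans X V := ⟨t.tgt, t.src, t.mat⁻¹⟩

/-- The cocycle. -/
def Sys.coc (S : Sys X V) : ℕ → X → (V ≃L[ℝ] V)
  | 0, _ => 1
  | n + 1, y => S.coc n (S.f y) * S.a y

/-- `Path S τ m i j n M`: a sequence of orbit segments of lengths at least `m`, the first
beginning after the transition `i` and the last ending before the transition `j`, joined by
transitions of the family `τ`; `n` is the total length, `M` the product of the cocycle. -/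
inductive Path (S : Sys X V) {ι : Type*} (τ : ι → Trans X V) (m : ℕ) :
    ι → ι → ℕ → (V ≃L[ℝ] V) → Prop
  | stage {i j : ι} (n : ℕ) (hn : m ≤ n) (h : (S.f ^ n) (τ i).tgt = (τ j).src) :
      Path S τ m i j n (S.coc n (τ i).tgt)
  | comp {i j l : ι} {n n' : ℕ} {M M' : V ≃L[ℝ] V} (h : Path S τ m i j n M)
      (h' : Path S τ m j l n' M') : Path S τ m i l (n + n') (M' * (τ j).mat * M)

/-- The closed words with stages of length at least `m` and at most `k` different transitions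
are hyperbolic. -/
def Star (S : Sys X V) (m k : ℕ) : Prop :=
  ∀ (ι : Type) [Fintype ι], Fintype.card ι ≤ k → ∀ τ : ι → Trans X V,
    (∀ i, S.Tr (τ i).src (τ i).tgt (τ i).mat) → ∀ i n M, Path S τ m i i n M → Hyp ((τ i).mat * M)

/-- A sequence of transitions and stages beginning with the transition `i` and ending with the
transition `j`. -/
def Word (S : Sys X V) {ι : Type*} (τ : ι → Trans X V) (m : ℕ) (i j : ι) (n : ℕ)
    (B : V ≃L[ℝ] V) : Prop :=
  (i = j ∧ n = 0 ∧ B = (τ i).mat) ∨ ∃ M, Path S τ m i j n M ∧ B = (τ j).mat * M * (τ i).mat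

/-- The cocycle multiplied by `exp η`. -/
def Sys.scale (S : Sys X V) (η : ℝ) : Sys X V where
  f := S.f
  a y := sc η * S.a y
  K := S.K * Real.exp |η|
  one_le_K := by
    have h1 := S.one_le_K
    have h2 : 1 ≤ Real.exp |η| := Real.one_le_exp (abs_nonneg η)
    nlinarith
  norm_a y := by
    refine ContinuousLinearMap.opNorm_le_bound _ (by have := S.one_le_K; positivity) fun v => ?_
    change ‖Real.exp η • (S.a y v)‖ ≤ _
    rw [norm_smul, Real.norm_eq_abs, Real.abs_exp]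
    have h1 := (S.a y : V →L[ℝ] V).le_of_opNorm_le (S.norm_a y) v
    have h2 : Real.exp η ≤ Real.exp |η| := Real.exp_le_exp.2 (le_abs_self η)
    calc Real.exp η * ‖S.a y v‖ ≤ Real.exp |η| * (S.K * ‖v‖) :=
          mul_le_mul h2 h1 (norm_nonneg _) (Real.exp_pos _).le
      _ = S.K * Real.exp |η| * ‖v‖ := by ring
  norm_a' y := by
    refine ContinuousLinearMap.opNorm_le_bound _ (by have := S.one_le_K; positivity) fun v => ?_
    change ‖(S.a y)⁻¹ (Real.exp (-η) • v)‖ ≤ _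
    rw [map_smul, norm_smul, Real.norm_eq_abs, Real.abs_exp]
    have h1 := ((S.a y)⁻¹ : V ≃L[ℝ] V).toContinuousLinearMap.le_of_opNorm_le (S.norm_a' y) v
    have h2 : Real.exp (-η) ≤ Real.exp |η| := Real.exp_le_exp.2 (neg_le_abs η)
    calc Real.exp (-η) * ‖(S.a y)⁻¹ v‖ ≤ Real.exp |η| * (S.K * ‖v‖) :=
          mul_le_mul h2 h1 (norm_nonneg _) (Real.exp_pos _).le
      _ = S.K * Real.exp |η| * ‖v‖ := by ring
  κ := S.κ
  fin := S.fin
  cell := S.cell
  c := S.c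
  c_pos := S.c_pos
  c_le := S.c_le
  Tr := S.Tr
  norm_Tr z y D h := by
    have h1 := S.norm_Tr z y D h
    have h2 : 1 ≤ Real.exp |η| := Real.one_le_exp (abs_nonneg η)
    have h3 : S.K ≤ S.K * Real.exp |η| := le_mul_of_one_le_right (by linarith [S.one_le_K]) h2
    exact ⟨h1.1.trans h3, h1.2.trans h3⟩
  tr_cell := S.tr_cell

/-- Closed chains with `p` jumps and stages of length at least `n₀` are uniformly hyperbolic. -/
def ChainUH (S : Sys X V) (p : ℕ) (C δ : ℝ) (n₀ : ℕ) : Prop :=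
  ∀ (y : ZMod p → X) (n : ZMod p → ℕ) (D : ZMod p → V ≃L[ℝ] V), (∀ q, n₀ ≤ n q) →
    (∀ q, S.Tr ((S.f ^ n q) (y q)) (y (q + 1)) (D q)) →
    ∃ Es Eu : ZMod p → Submodule ℝ V, (∀ q, IsCompl (Es q) (Eu q)) ∧
      (∀ q, ∀ v ∈ Es q, ∀ w ∈ Eu q, ‖v‖ ≤ C * ‖v + w‖ ∧ ‖w‖ ≤ C * ‖v + w‖) ∧
      (∀ q, ∀ v ∈ Es q, D q (S.coc (n q) (y q) v) ∈ Es (q + 1)) ∧
      (∀ q, ∀ v ∈ Eu q, D q (S.coc (n q) (y q) v) ∈ Eu (q + 1)) ∧
      (∀ q, ∀ v ∈ Es q, ∀ t₁ t₂ : ℕ, t₁ ≤ t₂ → t₂ ≤ n q →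
        ‖S.coc t₂ (y q) v‖ ≤ C * Real.exp (-δ * (t₂ - t₁)) * ‖S.coc t₁ (y q) v‖) ∧
      (∀ q, ∀ v ∈ Eu q, ∀ t₁ t₂ : ℕ, t₁ ≤ t₂ → t₂ ≤ n q →
        ‖S.coc t₁ (y q) v‖ ≤ C * Real.exp (-δ * (t₂ - t₁)) * ‖S.coc t₂ (y q) v‖)

end Abstract

end Pool.Agent.OmegaPS
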