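import Pool.Agent.Work.MP_814647_an.PS.Defs
import Pool.Agent.Work.MP_814647_an.Bd.B01
import Pool.Agent.Work.MP_814647_an.Family
import Pool.Agent.Work.MP_814647_an.FinHyp
import Pool.Agent.Work.MP_814647_an.Bd.B04
import Pool.Agent.Work.MP_814647_an.Bd.B05

/-!
# Products: geometric notions
-/

open Set Filter Topology Function
open scoped Manifold ContDiff

noncomputable section

namespace Pool.Agent.OmegaPS

open Pool.Agent.OmegaStab (EE Dyn IsFam PP HypAt crTopology HypLin)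
open Pool.Agent.OmegaStab.FinHyp (der)
open Pool.Agent.OmegaStability

/-- Every finite cyclic sequence of symbols and (long) times is realised by a periodic orbit which
is in the set of the symbol at the special times and in `E` at all other times. -/
def Switchable {B : Type*} [TopologicalSpace B] (A : B → B) : Prop :=
  ∀ k : ℕ, ∃ (m : ℕ) (D : Fin k → Set B) (E : Set B), 1 ≤ m ∧ (∀ i, IsClosed (D i)) ∧ IsClosed E ∧
    (∀ i j, i ≠ j → Disjoint (D i) (D j)) ∧ (∀ i, Disjoint (D i) E) ∧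
    ∀ (p : ℕ) (s : ℕ → Fin k) (n : ℕ → ℕ), 0 < p → s p = s 0 → (∀ q < p, m ≤ n q) →
      ∃ x : ℕ → B, x p = x 0 ∧ ∀ q < p, x q ∈ D (s q) ∧ A^[n q] (x q) = x (q + 1) ∧
        ∀ t, 0 < t → t < n q → A^[t] (x q) ∈ E

/-- Every finite cyclic sequence of long return times to a small neighbourhood of a non-periodic
point `q` is realised by a periodic orbit. -/
def ReturnSeq {B : Type*} [MetricSpace B] (A : B → B) : Prop :=
  ∃ (q : B) (ρ₀ : ℝ), 0 < ρ₀ ∧ q ∉ periodicPts A ∧ ∀ ρ, 0 < ρ → ρ < ρ₀ → ∃ n₀ : ℕ,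
    ∀ (p : ℕ) (g : ℕ → ℕ), 0 < p → (∀ i < p, n₀ ≤ g i) →
      ∃ x : ℕ → B, x p = x 0 ∧ ∀ i < p, dist (x i) q ≤ ρ ∧ A^[g i] (x i) = x (i + 1) ∧
        ∀ t, 0 < t → t < g i → ρ₀ ≤ dist (A^[t] (x i)) q

/-- The points which are starting points of closed chains with `p` jumps, arbitrarily long stages
and arbitrarily small jumps. -/
def ChainPts {N : Type*} [MetricSpace N] (F : N → N) (p : ℕ) : Set N :=
  {x | ∀ ε > 0, ∀ n₁ : ℕ, ∃ (y : ZMod p → N) (n : ZMod p → ℕ), dist (y 0) x ≤ ε ∧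
    (∀ q, n₁ ≤ n q) ∧ ∀ q, dist (F^[n q] (y q)) (y (q + 1)) ≤ ε}

/-- Points of closed chains are limits of periodic points. -/
def ChainClosed {N : Type*} [MetricSpace N] (F : N → N) : Prop :=
  ∀ p : ℕ, 1 ≤ p → ChainPts F p ⊆ closure (periodicPts F)

section

variable {d : ℕ} {N : Type*} [MetricSpace N] [ChartedSpace (EE d) N]

/-- The derivative at `z` of the chart at `x`. -/
def fr (x z : N) : EE d →L[ℝ] EE d := mfderiv (𝓡 d) 𝓘(ℝ, EE d) (extChartAt (𝓡 d) x) z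

variable (d N) in
/-- A finite atlas with families of local affine perturbations. -/
structure Atlas (r : ℕ∞) where
  J : Type
  fin : Finite J
  ctr : J → N
  W : J → Set N
  isOpen_W : ∀ j, IsOpen (W j)
  closure_W : ∀ j, closure (W j) ⊆ (extChartAt (𝓡 d) (ctr j)).source
  cover : ∀ z, ∃ j, z ∈ W j
  h : J → PP d → Dyn d N r
  isFam : ∀ j, IsFam (h j)
  isFam' : ∀ j, IsFam (fun π => (h j π).symm)
  affine : ∀ j, ∀ᶠ π in 𝓝 (0 : PP d), ∀ z ∈ W j,
    h j π z ∈ (extChartAt (𝓡 d) (ctr j)).source ∧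
    extChartAt (𝓡 d) (ctr j) (h j π z) = extChartAt (𝓡 d) (ctr j) z + π.1 +
      π.2 (extChartAt (𝓡 d) (ctr j) z - extChartAt (𝓡 d) (ctr j) (ctr j))

/-- The derivative cocycle of `F` in bounded frames, with a finite colouring of the points and the
transitions between close points given by nearly the identity in the charts of the atlas. -/
structure GeoSys {r : ℕ∞} (At : Atlas d N r) (F : Dyn d N r) (ε : ℝ) where
  S : Sys N (EE d)
  frame : N → (EE d ≃L[ℝ] EE d)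
  e : At.J → N → (EE d ≃L[ℝ] EE d)
  f_eq : ∀ z, S.f z = F z
  a_eq : ∀ z (v : EE d), S.a z (frame z v) = frame (F z) (der (d := d) F z v)
  e_eq : ∀ j, ∀ z ∈ At.W j, (e j z : EE d →L[ℝ] EE d) = fr (At.ctr j) z
  tr_iff : ∀ z y D, S.Tr z y D ↔ ∃ j, z ∈ At.W j ∧ y ∈ At.W j ∧
    ‖extChartAt (𝓡 d) (At.ctr j) y - extChartAt (𝓡 d) (At.ctr j) z‖ ≤ ε ∧
    ∃ L, Near ε L ∧ D = frame y * (e j y)⁻¹ * L * e j z * (frame z)⁻¹
  Kθ : ℝ
  bound : ∀ j, ∀ z ∈ At.W j, ∀ v : EE d, ‖frame z v‖ ≤ Kθ * ‖e j z v‖ ∧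
    ‖e j z v‖ ≤ Kθ * ‖frame z v‖

end

end Pool.Agent.OmegaPS
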