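import Pool.Agent.Work.MP_814647_an.PS.Geo

/-!
# Products: homoclinic points of periodic orbits
-/

open Set Filter Topology Function
open scoped Manifold ContDiff

noncomputable section

namespace Pool.Agent.OmegaStability

section

variable (E : Type*) [NormedAddCommGroup E] [NormedSpace ℝ E]
  {M : Type*} [MetricSpace M] [ChartedSpace E M] [IsManifold 𝓘(ℝ, E) ∞ M]

/-- The map `f`, with inverse `f'`, has a transverse homoclinic orbit: there are a periodic point
`p` and a non-periodic point `q` whose forward and backward orbits converge to the orbit of `p`,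
and the closure of the orbit of `q` is a hyperbolic set (equivalently, the orbit of `p` is
hyperbolic and its stable and unstable manifolds intersect transversely at `q`). -/
def HasTransverseHomoclinicOrbit (f f' : M → M) : Prop :=
  ∃ p q : M, p ∈ periodicPts f ∧ q ∉ periodicPts f ∧
    Tendsto (fun n : ℕ => f^[n] q) atTop (𝓝ˢ (range fun n : ℕ => f^[n] p)) ∧
    Tendsto (fun n : ℕ => f'^[n] q) atTop (𝓝ˢ (range fun n : ℕ => f^[n] p)) ∧
    HyperbolicStructure E f f' (closure {x | ∃ n : ℕ, x = f^[n] q ∨ x = f'^[n] q})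

end

end Pool.Agent.OmegaStability

namespace Pool.Agent.OmegaPS

/-- As `Switchable`, for cyclic sequences whose number of symbols and total time are multiples
of `w`. -/
def SwitchableMod {B : Type*} [TopologicalSpace B] (A : B → B) : Prop :=
  ∃ w : ℕ, 0 < w ∧ ∀ k : ℕ, ∃ (m : ℕ) (D : Fin k → Set B) (E : Set B), 1 ≤ m ∧
    (∀ i, IsClosed (D i)) ∧ IsClosed E ∧ (∀ i j, i ≠ j → Disjoint (D i) (D j)) ∧
    (∀ i, Disjoint (D i) E) ∧
    ∀ (p : ℕ) (s : ℕ → Fin k) (n : ℕ → ℕ), 0 < p → w ∣ p → w ∣ ∑ q ∈ Finset.range p, n q →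
      s p = s 0 → (∀ q < p, m ≤ n q) →
      ∃ x : ℕ → B, x p = x 0 ∧ ∀ q < p, x q ∈ D (s q) ∧ A^[n q] (x q) = x (q + 1) ∧
        ∀ t, 0 < t → t < n q → A^[t] (x q) ∈ E

/-- As `ReturnSeq`, for return times in the residue class of `c` modulo `w`. -/
def ReturnSeqMod {B : Type*} [MetricSpace B] (A : B → B) : Prop :=
  ∃ (q : B) (ρ₀ : ℝ) (w c : ℕ), 0 < ρ₀ ∧ 0 < w ∧ q ∉ periodicPts A ∧
    ∀ ρ, 0 < ρ → ρ < ρ₀ → ∃ n₀ : ℕ, ∀ (p : ℕ) (g : ℕ → ℕ), 0 < p →
      (∀ i < p, n₀ ≤ g i ∧ g i ≡ c [MOD w]) →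
      ∃ x : ℕ → B, x p = x 0 ∧ ∀ i < p, dist (x i) q ≤ ρ ∧ A^[g i] (x i) = x (i + 1) ∧
        ∀ t, 0 < t → t < g i → ρ₀ ≤ dist (A^[t] (x i)) q

end Pool.Agent.OmegaPS
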