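import Pool.Agent.Work.MP_814647_an.PS.Geo
import Pool.Agent.Work.MP_814647_an.Linear

/-!
# MP_814647_an, products, item 24: hyperbolicity of the fibre maps (helper5)
-/

open Set Filter Topology Function
open scoped Manifold ContDiff

noncomputable section

namespace Pool.Agent.OmegaPS

open Pool.Agent.OmegaStab (EE Dyn IsFam PP HypAt crTopology HypLin ConjClass)
open Pool.Agent.OmegaStab.FinHyp (der)
open Pool.Agent.OmegaStability

namespace FibreHyp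

section Lin

variable {E : Type*} [NormedAddCommGroup E] [NormedSpace ℝ E]

theorem rot_iter {B : E →L[ℝ] E} {θ : ℝ} {v w : E}
    (hv : B v = Real.cos θ • v - Real.sin θ • w)
    (hw : B w = Real.sin θ • v + Real.cos θ • w) (n : ℕ) :
    (B ^ n) v = Real.cos (n * θ) • v - Real.sin (n * θ) • w ∧
      (B ^ n) w = Real.sin (n * θ) • v + Real.cos (n * θ) • w := by
  induction n with
  | zero =>
    simp only [pow_zero, Nat.cast_zero, zero_mul, Real.cos_zero, one_smul, Real.sin_zero,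
      zero_smul, sub_zero, zero_add]
    exact ⟨rfl, rfl⟩
  | succ n ih =>
    have e : ((n + 1 : ℕ) : ℝ) * θ = n * θ + θ := by push_cast; ring
    rw [pow_succ', e, Real.cos_add, Real.sin_add]
    constructor
    · change B ((B ^ n) v) = _
      rw [ih.1, map_sub, map_smul, map_smul, hv, hw]
      module
    · change B ((B ^ n) w) = _
      rw [ih.2, map_add, map_smul, map_smul, hv, hw]
      module

theorem bdd_of_pow {D : E →L[ℝ] E} {a : ℕ} (ha : 0 < a) {x : E}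
    (h : ∃ B, ∀ n : ℕ, ‖((D ^ a) ^ n) x‖ ≤ B) : ∃ B, ∀ n : ℕ, ‖(D ^ n) x‖ ≤ B := by
  obtain ⟨B, hB⟩ := h
  have hB0 : 0 ≤ B := (norm_nonneg _).trans (hB 0)
  refine ⟨(∑ r ∈ Finset.range a, ‖D ^ r‖) * B, fun n => ?_⟩
  have h1 : (D ^ n) x = (D ^ (n % a)) (((D ^ a) ^ (n / a)) x) := by
    conv_lhs => rw [← Nat.mod_add_div n a, pow_add, pow_mul]
    rfl
  rw [h1]
  refine ((D ^ (n % a)).le_opNorm _).trans ?_
  have h2 : ‖D ^ (n % a)‖ ≤ ∑ r ∈ Finset.range a, ‖D ^ r‖ :=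
    Finset.single_le_sum (f := fun r => ‖D ^ r‖) (fun _ _ => norm_nonneg _)
      (Finset.mem_range.2 (Nat.mod_lt _ ha))
  exact mul_le_mul h2 (hB _) (norm_nonneg _) (Finset.sum_nonneg fun _ _ => norm_nonneg _)

theorem hypLin_pow [FiniteDimensional ℝ E] {D : E →L[ℝ] E} (h : HypLin D) {a : ℕ} (ha : 0 < a) :
    HypLin (D ^ a) := by
  obtain ⟨Es, Eu, C, μ, g1, g2, g3, g4, g5, g6, g7, g8⟩ :=
    Pool.Agent.OmegaStab.HypLin.split h
  have hS : Pool.Agent.OmegaStab.FinHyp.Split D Es Eu C μ := ⟨g1, g2, g3, g4, g5, g6, g7, g8⟩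
  intro θ v w hv hw
  have key := rot_iter hv hw
  have hrot : ∀ n : ℕ, ‖((D ^ a) ^ n) v‖ ≤ ‖v‖ + ‖w‖ ∧ ‖((D ^ a) ^ n) w‖ ≤ ‖v‖ + ‖w‖ := by
    intro n
    rw [(key n).1, (key n).2]
    have c1 := Real.abs_cos_le_one (n * θ)
    have s1 := Real.abs_sin_le_one (n * θ)
    have nv := norm_nonneg v
    have nw := norm_nonneg w
    constructor
    · refine (norm_sub_le _ _).trans ?_
      rw [norm_smul, norm_smul, Real.norm_eq_abs, Real.norm_eq_abs]
      nlinarith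
    · refine (norm_add_le _ _).trans ?_
      rw [norm_smul, norm_smul, Real.norm_eq_abs, Real.norm_eq_abs]
      nlinarith
  have hvs : v ∈ Es := (hS.mem_iff v).2 (bdd_of_pow ha ⟨_, fun n => (hrot n).1⟩)
  have hws : w ∈ Es := (hS.mem_iff w).2 (bdd_of_pow ha ⟨_, fun n => (hrot n).2⟩)
  have hm0 : 0 < μ ^ a := pow_pos g5 a
  have hm1 : μ ^ a < 1 := pow_lt_one₀ g5.le g6 ha.ne'
  have hcon : ∀ x ∈ Es, ∀ n : ℕ, ‖((D ^ a) ^ n) x‖ ≤ C * (μ ^ a) ^ n * ‖x‖ := by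
    intro x hx n
    rw [← pow_mul, ← pow_mul]
    exact g7 x hx (a * n)
  have bnd : ∀ n : ℕ, ‖((D ^ a) ^ n) v‖ + ‖((D ^ a) ^ n) w‖ ≤
      C * (μ ^ a) ^ n * (‖v‖ + ‖w‖) := by
    intro n
    have h1 := hcon v hvs n
    have h2 := hcon w hws n
    linarith
  have hsq : ∀ n : ℕ, Real.sin (n * θ) * Real.sin (n * θ) +
      Real.cos (n * θ) * Real.cos (n * θ) = 1 := by
    intro n
    have := Real.sin_sq_add_cos_sq (n * θ)
    nlinarith
  constructor
  · refine Pool.Agent.OmegaStab.FinHyp.eq_zero_of_bound (C := C) (B := ‖v‖ + ‖w‖) hm0 hm1 v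
      fun n => le_trans ?_ (bnd n)
    have e1 : v = Real.cos (n * θ) • ((D ^ a) ^ n) v + Real.sin (n * θ) • ((D ^ a) ^ n) w := by
      rw [(key n).1, (key n).2]
      have e2 : v = (Real.sin (n * θ) * Real.sin (n * θ) +
        Real.cos (n * θ) * Real.cos (n * θ)) • v := by rw [hsq n, one_smul]
      conv_lhs => rw [e2]
      module
    calc ‖v‖ = ‖Real.cos (n * θ) • ((D ^ a) ^ n) v + Real.sin (n * θ) • ((D ^ a) ^ n) w‖ := by
          rw [← e1]
      _ ≤ ‖((D ^ a) ^ n) v‖ + ‖((D ^ a) ^ n) w‖ := by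
          refine (norm_add_le _ _).trans ?_
          rw [norm_smul, norm_smul, Real.norm_eq_abs, Real.norm_eq_abs]
          have c1 := Real.abs_cos_le_one (n * θ)
          have s1 := Real.abs_sin_le_one (n * θ)
          have nv := norm_nonneg (((D ^ a) ^ n) v)
          have nw := norm_nonneg (((D ^ a) ^ n) w)
          nlinarith
  · refine Pool.Agent.OmegaStab.FinHyp.eq_zero_of_bound (C := C) (B := ‖v‖ + ‖w‖) hm0 hm1 w
      fun n => le_trans ?_ (bnd n)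
    have e1 : w = Real.cos (n * θ) • ((D ^ a) ^ n) w - Real.sin (n * θ) • ((D ^ a) ^ n) v := by
      rw [(key n).1, (key n).2]
      have e2 : w = (Real.sin (n * θ) * Real.sin (n * θ) +
        Real.cos (n * θ) * Real.cos (n * θ)) • w := by rw [hsq n, one_smul]
      conv_lhs => rw [e2]
      module
    calc ‖w‖ = ‖Real.cos (n * θ) • ((D ^ a) ^ n) w - Real.sin (n * θ) • ((D ^ a) ^ n) v‖ := by
          rw [← e1]
      _ ≤ ‖((D ^ a) ^ n) v‖ + ‖((D ^ a) ^ n) w‖ := by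
          refine (norm_sub_le _ _).trans ?_
          rw [norm_smul, norm_smul, Real.norm_eq_abs, Real.norm_eq_abs]
          have c1 := Real.abs_cos_le_one (n * θ)
          have s1 := Real.abs_sin_le_one (n * θ)
          have nv := norm_nonneg (((D ^ a) ^ n) v)
          have nw := norm_nonneg (((D ^ a) ^ n) w)
          nlinarith

end Lin

section Man

variable {d₁ d₂ d₃ : ℕ} {A B C : Type*} [TopologicalSpace A] [ChartedSpace (EE d₁) A]
  [TopologicalSpace B] [ChartedSpace (EE d₂) B] [TopologicalSpace C] [ChartedSpace (EE d₃) C]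

/-- The derivative as a linear map between the model spaces. -/
def dd (f : A → B) (x : A) : EE d₁ →L[ℝ] EE d₂ := mfderiv (𝓡 d₁) (𝓡 d₂) f x

theorem dd_comp {f : A → B} {g : B → C} {x : A} (hg : MDifferentiableAt (𝓡 d₂) (𝓡 d₃) g (f x))
    (hf : MDifferentiableAt (𝓡 d₁) (𝓡 d₂) f x) :
    dd (d₁ := d₁) (d₂ := d₃) (g ∘ f) x =
      (dd (d₁ := d₂) (d₂ := d₃) g (f x)).comp (dd (d₁ := d₁) (d₂ := d₂) f x) :=
  mfderiv_comp x hg hf

end Man

end FibreHyp

section One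

variable {d : ℕ} {N : Type*} [MetricSpace N] [ChartedSpace (EE d) N] {r : ℕ∞}
  [IsManifold (𝓡 d) ∞ N]

omit [IsManifold (𝓡 d) ∞ N] in
theorem hypLin_iterate (hr : 1 ≤ r) (g : Dyn d N r) {p : N} (h : HypAt (d := d) g p) {n : ℕ}
    (hn : 0 < n) (hp : g^[n] p = p) : HypLin (der (d := d) g^[n] p) := by
  obtain ⟨hper, hlin⟩ := h
  have hg := Pool.Agent.OmegaStab.FinHyp.mdiff hr g
  have hk : g^[minimalPeriod g p] p = p := iterate_minimalPeriod
  obtain ⟨a, ha⟩ : minimalPeriod g p ∣ n := IsPeriodicPt.minimalPeriod_dvd hp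
  have ha0 : 0 < a := by
    rcases Nat.eq_zero_or_pos a with h0 | h0
    · rw [h0, mul_zero] at ha
      omega
    · exact h0
  rw [ha, Pool.Agent.OmegaStab.FinHyp.der_iter_mul hg hk a]
  apply FibreHyp.hypLin_pow _ ha0
  rw [Pool.Agent.OmegaStab.FinHyp.der_eq_fderiv
    (Pool.Agent.OmegaStab.FinHyp.mdiff_iter hg _) hk]
  exact hlin

end One

section Product

variable {d₁ d₂ d : ℕ} {N₁ N₂ M : Type*} [MetricSpace N₁] [ChartedSpace (EE d₁) N₁]
  [IsManifold (𝓡 d₁) ∞ N₁] [MetricSpace N₂] [ChartedSpace (EE d₂) N₂]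
  [IsManifold (𝓡 d₂) ∞ N₂] [MetricSpace M] [ChartedSpace (EE d) M] [IsManifold (𝓡 d) ∞ M]
  [CompactSpace N₁] [CompactSpace N₂] [CompactSpace M] {r : ℕ∞}

omit [IsManifold (𝓡 d₁) ∞ N₁] [IsManifold (𝓡 d₂) ∞ N₂] [IsManifold (𝓡 d) ∞ M]
  [CompactSpace N₁] [CompactSpace N₂] [CompactSpace M] in
open FibreHyp in
theorem fibre_hyp (hr : 1 ≤ r) (Φ : Diffeomorph (𝓡 d) ((𝓡 d₁).prod (𝓡 d₂)) M (N₁ × N₂) ∞)
    (g : Dyn d M r) {n : ℕ} (hn : 0 < n) {y₀ : N₁} {x₀ : N₂}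
    (hg : HypAt (d := d) g (Φ.symm (y₀, x₀))) {H : N₁ → N₁}
    (hH : MDifferentiableAt (𝓡 d₁) (𝓡 d₁) H y₀) (hy₀ : H y₀ = y₀)
    (h : ∀ y, g^[n] (Φ.symm (y, x₀)) = Φ.symm (H y, x₀)) : HypLin (der (d := d₁) H y₀) := by
  have hζ : g^[n] (Φ.symm (y₀, x₀)) = Φ.symm (y₀, x₀) := by rw [h, hy₀]
  have hL := hypLin_iterate hr g hg hn hζ
  have hgn : MDifferentiable (𝓡 d) (𝓡 d) g^[n] :=
    Pool.Agent.OmegaStab.FinHyp.mdiff_iter (Pool.Agent.OmegaStab.FinHyp.mdiff hr g) n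
  set i : N₁ → M := fun y => Φ.symm (y, x₀) with hi
  have hΦ : MDifferentiable (𝓡 d) ((𝓡 d₁).prod (𝓡 d₂)) Φ :=
    Φ.contMDiff.mdifferentiable (by simp)
  have hΦ' : MDifferentiable ((𝓡 d₁).prod (𝓡 d₂)) (𝓡 d) Φ.symm :=
    Φ.symm.contMDiff.mdifferentiable (by simp)
  have hin : MDifferentiable (𝓡 d₁) ((𝓡 d₁).prod (𝓡 d₂)) fun y : N₁ => (y, x₀) :=
    mdifferentiable_id.prodMk mdifferentiable_const
  have hid : MDifferentiable (𝓡 d₁) (𝓡 d) i := hΦ'.comp hin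
  have hq : MDifferentiable (𝓡 d) (𝓡 d₁) fun z : M => (Φ z).1 :=
    mdifferentiable_fst.comp hΦ
  have e1 : (fun z : M => (Φ z).1) ∘ i = id := by
    funext y
    simp [hi]
  have e2 : (dd (d₁ := d) (d₂ := d₁) (fun z : M => (Φ z).1) (i y₀)).comp
      (dd (d₁ := d₁) (d₂ := d) i y₀) = ContinuousLinearMap.id ℝ (EE d₁) := by
    rw [← dd_comp (hq _) (hid _), e1]
    exact mfderiv_id
  have hinj : ∀ v : EE d₁, dd (d₁ := d₁) (d₂ := d) i y₀ v = 0 → v = 0 := by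
    intro v hv
    have h1 : ((dd (d₁ := d) (d₂ := d₁) (fun z : M => (Φ z).1) (i y₀)).comp
      (dd (d₁ := d₁) (d₂ := d) i y₀)) v = v := by rw [e2]; rfl
    rw [ContinuousLinearMap.comp_apply, hv, map_zero] at h1
    exact h1.symm
  have e3 : g^[n] ∘ i = i ∘ H := by
    funext y
    exact h y
  have e4 : (dd (d₁ := d) (d₂ := d) g^[n] (i y₀)).comp (dd (d₁ := d₁) (d₂ := d) i y₀) =
      (dd (d₁ := d₁) (d₂ := d) i y₀).comp (dd (d₁ := d₁) (d₂ := d₁) H y₀) := by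
    rw [← dd_comp (hgn _) (hid _), e3, dd_comp (hid _) hH, hy₀]
  have e5 : ∀ v : EE d₁, der (d := d) g^[n] (Φ.symm (y₀, x₀)) (dd (d₁ := d₁) (d₂ := d) i y₀ v) =
      dd (d₁ := d₁) (d₂ := d) i y₀ (der (d := d₁) H y₀ v) := by
    intro v
    exact congrArg (fun T : EE d₁ →L[ℝ] EE d => T v) e4
  intro θ v w hv hw
  have h1 := hL θ (dd (d₁ := d₁) (d₂ := d) i y₀ v) (dd (d₁ := d₁) (d₂ := d) i y₀ w)
    (by rw [e5, hv, map_sub, map_smul, map_smul]) (by rw [e5, hw, map_add, map_smul, map_smul])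
  exact ⟨hinj v h1.1, hinj w h1.2⟩

end Product

end Pool.Agent.OmegaPS
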