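import Pool.Agent.Work.MP_814647_an.Bd.B06

/-!
# Products: perturbations acting on finitely many fibres (GE3b)
-/

open Set Filter Topology Function
open scoped Manifold ContDiff

noncomputable section

namespace Pool.Agent.OmegaPS

open Pool.Agent.OmegaStab (EE Dyn IsFam PP HypAt crTopology HypLin ConjClass)
open Pool.Agent.OmegaStab.FinHyp (der)
open Pool.Agent.OmegaStability

namespace PertAux

section Fam

variable {d : ℕ} {M : Type*} [MetricSpace M] [ChartedSpace (EE d) M] {r : ℕ∞}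

theorem comp_lin {V W : Type*} [NormedAddCommGroup V] [NormedSpace ℝ V]
    [NormedAddCommGroup W] [NormedSpace ℝ W] {h : V → Dyn d M r} (hh : IsFam h)
    (L : W →L[ℝ] V) : IsFam (fun w => h (L w)) := by
  obtain ⟨h0, U, hU, hUs⟩ := hh
  refine ⟨by simpa using h0, L ⁻¹' U, ?_, ?_⟩
  · apply L.continuous.continuousAt.preimage_mem_nhds
    simpa using hU
  · have e1 : ContMDiff (𝓘(ℝ, W).prod (𝓡 d)) 𝓘(ℝ, V) r (fun p : W × M => L p.1) :=
      L.contMDiff.comp contMDiff_fst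
    have e3 : ContMDiff (𝓘(ℝ, W).prod (𝓡 d)) (𝓡 d) r (fun p : W × M => p.2) := contMDiff_snd
    have h1 : ContMDiff (𝓘(ℝ, W).prod (𝓡 d)) (𝓘(ℝ, V).prod (𝓡 d)) r
        (fun p : W × M => (L p.1, p.2)) := e1.prodMk e3
    refine hUs.comp h1.contMDiffOn ?_
    rintro ⟨w, x⟩ ⟨hw, -⟩
    exact ⟨hw, mem_univ _⟩

theorem trans₂ {V : Type*} [NormedAddCommGroup V] [NormedSpace ℝ V]
    {h k : V → Dyn d M r} (hh : IsFam h) (hk : IsFam k) :
    IsFam (fun v => (h v).trans (k v)) :=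
  comp_lin (hh.comp hk) ((ContinuousLinearMap.id ℝ V).prod (ContinuousLinearMap.id ℝ V))

theorem refl_fam {V : Type*} [NormedAddCommGroup V] [NormedSpace ℝ V] :
    IsFam (fun _ : V => Diffeomorph.refl (𝓡 d) M (r : ℕ∞ω)) := by
  refine ⟨rfl, univ, univ_mem, ?_⟩
  have e3 : ContMDiff (𝓘(ℝ, V).prod (𝓡 d)) (𝓡 d) r (fun p : V × M => p.2) := contMDiff_snd
  exact e3.contMDiffOn

/-- The composition of the families `P i (π i)`, `i` in the list `l`. -/
def Q {k : ℕ} {V : Type*} (P : Fin k → V → Dyn d M r) :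
    List (Fin k) → (Fin k → V) → Dyn d M r
  | [], _ => Diffeomorph.refl (𝓡 d) M (r : ℕ∞ω)
  | i :: l, π => (P i (π i)).trans (Q P l π)

theorem Q_fam {k : ℕ} {V : Type*} [NormedAddCommGroup V] [NormedSpace ℝ V]
    (P : Fin k → V → Dyn d M r) (hP : ∀ i, IsFam (P i)) (l : List (Fin k)) :
    IsFam (Q P l) := by
  induction l with
  | nil => exact refl_fam
  | cons i l ih =>
    have h1 : IsFam (fun π : Fin k → V => P i (π i)) :=
      comp_lin (hP i) (ContinuousLinearMap.proj (R := ℝ) (φ := fun _ : Fin k => V) i)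
    exact trans₂ h1 ih

/-- If the families for `i' ≠ i` fix the point `a` and its image `b` by the family for `i`,
the composition maps `a` to `b` or fixes it. -/
theorem Q_apply {k : ℕ} {V : Type*} (P : Fin k → V → Dyn d M r) (π : Fin k → V) (l : List (Fin k))
    (a : M) (h : ∀ i ∈ l, P i (π i) a = a) : Q P l π a = a := by
  induction l with
  | nil => rfl
  | cons i l ih =>
    change Q P l π (P i (π i) a) = a
    rw [h i (List.mem_cons_self ..)]
    exact ih fun j hj => h j (List.mem_cons_of_mem _ hj)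

theorem Q_apply' {k : ℕ} {V : Type*} (P : Fin k → V → Dyn d M r) (π : Fin k → V)
    (l : List (Fin k)) (hl : l.Nodup) (i : Fin k) (hi : i ∈ l) (a b : M)
    (ha : ∀ i' ∈ l, i' ≠ i → P i' (π i') a = a) (hb : ∀ i' ∈ l, i' ≠ i → P i' (π i') b = b)
    (hab : P i (π i) a = b) : Q P l π a = b := by
  induction l with
  | nil => simp at hi
  | cons i' l ih =>
    change Q P l π (P i' (π i') a) = b
    rw [List.nodup_cons] at hl
    by_cases h : i' = i
    · subst h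
      rw [hab]
      refine Q_apply P π l b fun j hj => hb j (List.mem_cons_of_mem _ hj) ?_
      rintro rfl
      exact hl.1 hj
    · rw [ha i' (List.mem_cons_self ..) h]
      refine ih hl.2 ?_ (fun j hj => ha j (List.mem_cons_of_mem _ hj))
        (fun j hj => hb j (List.mem_cons_of_mem _ hj))
      rcases List.mem_cons.1 hi with h' | h'
      · exact absurd h'.symm h
      · exact h'

end Fam

end PertAux

section Product

variable {d₁ d₂ d : ℕ} {N₁ N₂ M : Type*} [MetricSpace N₁] [ChartedSpace (EE d₁) N₁]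
  [IsManifold (𝓡 d₁) ∞ N₁] [MetricSpace N₂] [ChartedSpace (EE d₂) N₂]
  [IsManifold (𝓡 d₂) ∞ N₂] [MetricSpace M] [ChartedSpace (EE d) M] [IsManifold (𝓡 d) ∞ M]
  [CompactSpace N₁] [CompactSpace N₂] [CompactSpace M] {r : ℕ∞}

/-! GE3b -/
theorem pert (Φ : Diffeomorph (𝓡 d) ((𝓡 d₁).prod (𝓡 d₂)) M (N₁ × N₂) ∞) (f : Dyn d M r)
    (f₁ : Dyn d₁ N₁ r) (f₂ : Dyn d₂ N₂ r) (hf : ∀ x, Φ (f x) = (f₁ (Φ x).1, f₂ (Φ x).2))
    {𝒩 : Set (Dyn d M r)} (h𝒩 : IsOpen[crTopology d M r] 𝒩) (hf𝒩 : f ∈ 𝒩)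
    (At : Atlas d₁ N₁ r) {k : ℕ} (D : Fin k → Set N₂) (E : Set N₂) (hD : ∀ i, IsClosed (D i))
    (hE : IsClosed E) (hDD : ∀ i j, i ≠ j → Disjoint (D i) (D j))
    (hDE : ∀ i, Disjoint (D i) E) :
    ∃ c₀ : ℝ, 0 < c₀ ∧ ∀ (j : Fin k → At.J) (π : Fin k → PP d₁), (∀ i, ‖π i‖ ≤ c₀) →
      ∃ g ∈ 𝒩, (∀ y x, f₂ x ∈ E → Φ (g (Φ.symm (y, x))) = (f₁ y, f₂ x)) ∧
        ∀ i y x, f₂ x ∈ D i → Φ (g (Φ.symm (y, x))) = (At.h (j i) (π i) (f₁ y), f₂ x) := by
  have := At.fin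
  -- cut-off functions
  have hβ : ∀ i : Fin k, ∃ β : N₂ → ℝ, ContMDiff (𝓡 d₂) 𝓘(ℝ, ℝ) ∞ β ∧
      (∀ x, β x ∈ Icc (0 : ℝ) 1) ∧ (∀ x ∈ D i, β x = 1) ∧ (∀ x ∈ E, β x = 0) ∧
      ∀ i', i' ≠ i → ∀ x ∈ D i', β x = 0 := by
    intro i
    have hs : IsClosed (E ∪ ⋃ i' : {i' : Fin k // i' ≠ i}, D i') :=
      hE.union (isClosed_iUnion_of_finite fun i' => hD i')
    have hd : Disjoint (E ∪ ⋃ i' : {i' : Fin k // i' ≠ i}, D i') (D i) := by
      rw [disjoint_union_left, disjoint_iUnion_left]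
      exact ⟨(hDE i).symm, fun i' => hDD i' i i'.2⟩
    obtain ⟨β, h0, h1, h2⟩ := exists_contMDiffMap_zero_one_of_isClosed (n := ⊤) (𝓡 d₂) hs (hD i) hd
    refine ⟨β, β.contMDiff, h2, fun x hx => h1 hx, fun x hx => h0 (Or.inl hx), ?_⟩
    intro i' hi' x hx
    exact h0 (Or.inr (mem_iUnion.2 ⟨⟨i', hi'⟩, hx⟩))
  choose β hβs hβI hβ1 hβE hβD using hβ
  have hP := fun (i : Fin k) (j : At.J) =>
    cyl_fam Φ (At.isFam j) (At.isFam' j) (hβs i) (hβI i)
  choose P hPf hPe using hP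
  have hev : ∀ᶠ π in 𝓝 (0 : Fin k → PP d₁), ∀ j : Fin k → At.J,
      f.trans (PertAux.Q (fun i => P i (j i)) (List.finRange k) π) ∈ 𝒩 ∧
      ∀ i (y : N₁) (x : N₂),
        Φ (P i (j i) (π i) (Φ.symm (y, x))) = (At.h (j i) (β i x • π i) y, x) := by
    rw [eventually_all]
    intro j
    refine Filter.Eventually.and ?_ ?_
    · have hfam := PertAux.Q_fam (fun i => P i (j i)) (fun i => hPf i (j i)) (List.finRange k)
      exact (hfam.tendsto f).eventually
        (@IsOpen.mem_nhds _ (crTopology d M r) f 𝒩 h𝒩 hf𝒩)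
    · rw [eventually_all]
      intro i
      have h1 : Tendsto (fun π : Fin k → PP d₁ => π i) (𝓝 0) (𝓝 0) :=
        (continuous_apply i).tendsto' _ _ rfl
      exact h1.eventually (hPe i (j i))
  obtain ⟨c₀, hc₀, hc⟩ := Metric.nhds_basis_closedBall.eventually_iff.1 hev
  refine ⟨c₀, hc₀, fun j π hπ => ?_⟩
  have hπ' : π ∈ Metric.closedBall (0 : Fin k → PP d₁) c₀ := by
    rw [mem_closedBall_zero_iff, pi_norm_le_iff_of_nonneg hc₀.le]
    exact hπ
  obtain ⟨h1, h2⟩ := hc hπ' j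
  have hfix : ∀ i (y : N₁) (x : N₂), β i x = 0 →
      P i (j i) (π i) (Φ.symm (y, x)) = Φ.symm (y, x) := by
    intro i y x hx
    have h3 := h2 i y x
    rw [hx, zero_smul ℝ (π i), (At.isFam (j i)).1] at h3
    refine Φ.injective ?_
    change Φ _ = Φ _
    rw [h3, Φ.apply_symm_apply]
    rfl
  have hmove : ∀ i (y : N₁) (x : N₂), β i x = 1 →
      P i (j i) (π i) (Φ.symm (y, x)) = Φ.symm (At.h (j i) (π i) y, x) := by
    intro i y x hx
    have h3 := h2 i y x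
    rw [hx, one_smul ℝ (π i)] at h3
    refine Φ.injective ?_
    change Φ _ = Φ _
    rw [h3, Φ.apply_symm_apply]
  have hff : ∀ y x, f (Φ.symm (y, x)) = Φ.symm (f₁ y, f₂ x) := by
    intro y x
    refine Φ.injective ?_
    change Φ _ = Φ _
    rw [hf, Φ.apply_symm_apply, Φ.apply_symm_apply]
  refine ⟨_, h1, ?_, ?_⟩
  · intro y x hx
    change Φ (PertAux.Q (fun i => P i (j i)) (List.finRange k) π (f (Φ.symm (y, x)))) = _
    rw [hff, PertAux.Q_apply, Φ.apply_symm_apply]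
    intro i _
    exact hfix i _ _ (hβE i _ hx)
  · intro i y x hx
    change Φ (PertAux.Q (fun i => P i (j i)) (List.finRange k) π (f (Φ.symm (y, x)))) = _
    rw [hff, PertAux.Q_apply' _ π _ (List.nodup_finRange k) i (List.mem_finRange i) _
      (Φ.symm (At.h (j i) (π i) (f₁ y), f₂ x)) ?_ ?_ ?_, Φ.apply_symm_apply]
    · intro i' _ hi'
      exact hfix i' _ _ (hβD i' i (Ne.symm hi') _ hx)
    · intro i' _ hi'
      exact hfix i' _ _ (hβD i' i (Ne.symm hi') _ hx)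
    · exact hmove i _ _ (hβ1 i _ hx)

end Product

end Pool.Agent.OmegaPS
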