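import Pool.Agent.Work.MP_814647_an.PS.Geo
import Pool.Agent.Work.MP_814647_an.Metric
import Pool.Agent.Work.MP_814647_an.Bd.B03

/-!
# MP_814647_an, item 38 (helper40): products of hyperbolic structures
-/

open Set Filter Topology Function
open scoped Manifold ContDiff

noncomputable section

namespace Pool.Agent.OmegaPS

open Pool.Agent.OmegaStab (EE Dyn IsFam PP HypAt crTopology HypLin)
open Pool.Agent.OmegaStab.FinHyp (der)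
open Pool.Agent.OmegaStability

namespace ProdHyp

theorem isCompl_lin {E E₁ E₂ : Type*} [AddCommGroup E] [Module ℝ E] [AddCommGroup E₁]
    [Module ℝ E₁] [AddCommGroup E₂] [Module ℝ E₂] (p₁ : E →ₗ[ℝ] E₁) (p₂ : E →ₗ[ℝ] E₂)
    (hinj : ∀ v w, p₁ v = p₁ w → p₂ v = p₂ w → v = w)
    (hsurj : ∀ a b, ∃ v, p₁ v = a ∧ p₂ v = b) {V₁ W₁ : Submodule ℝ E₁} {V₂ W₂ : Submodule ℝ E₂}
    (h₁ : IsCompl V₁ W₁) (h₂ : IsCompl V₂ W₂) :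
    IsCompl (Submodule.comap p₁ V₁ ⊓ Submodule.comap p₂ V₂)
      (Submodule.comap p₁ W₁ ⊓ Submodule.comap p₂ W₂) := by
  constructor
  · rw [Submodule.disjoint_def]
    rintro v ⟨hv1, hv2⟩ ⟨hw1, hw2⟩
    have e1 := Submodule.disjoint_def.1 h₁.disjoint _ hv1 hw1
    have e2 := Submodule.disjoint_def.1 h₂.disjoint _ hv2 hw2
    apply hinj
    · rw [map_zero]
      exact e1
    · rw [map_zero]
      exact e2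
  · rw [codisjoint_iff, eq_top_iff]
    intro v _
    have t1 : p₁ v ∈ V₁ ⊔ W₁ := by
      rw [h₁.sup_eq_top]
      trivial
    have t2 : p₂ v ∈ V₂ ⊔ W₂ := by
      rw [h₂.sup_eq_top]
      trivial
    obtain ⟨a, ha, a', ha', hs1⟩ := Submodule.mem_sup.1 t1
    obtain ⟨b, hb, b', hb', hs2⟩ := Submodule.mem_sup.1 t2
    obtain ⟨s, hs, hs'⟩ := hsurj a b
    obtain ⟨u, hu, hu'⟩ := hsurj a' b'
    rw [Submodule.mem_sup]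
    refine ⟨s, ⟨?_, ?_⟩, u, ⟨?_, ?_⟩, ?_⟩
    · show p₁ s ∈ V₁
      rw [hs]
      exact ha
    · show p₂ s ∈ V₂
      rw [hs']
      exact hb
    · show p₁ u ∈ W₁
      rw [hu]
      exact ha'
    · show p₂ u ∈ W₂
      rw [hu']
      exact hb'
    apply hinj
    · rw [map_add, hs, hu]
      exact hs1
    · rw [map_add, hs', hu']
      exact hs2

section

variable {d d' d'' : ℕ} {M N P : Type*} [MetricSpace M] [ChartedSpace (EE d) M]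
  [MetricSpace N] [ChartedSpace (EE d') N] [MetricSpace P] [ChartedSpace (EE d'') P]

/-- The derivative as a map of the model spaces. -/
def dd (d d' : ℕ) {M N : Type*} [MetricSpace M] [ChartedSpace (EE d) M]
    [MetricSpace N] [ChartedSpace (EE d') N] (q : M → N) (x : M) : EE d →L[ℝ] EE d' :=
  mfderiv (𝓡 d) (𝓡 d') q x

theorem dd_comp {g : N → P} {h : M → N} (hg : MDifferentiable (𝓡 d') (𝓡 d'') g)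
    (hh : MDifferentiable (𝓡 d) (𝓡 d') h) (x : M) (v : EE d) :
    dd d d'' (g ∘ h) x v = dd d' d'' g (h x) (dd d d' h x v) := by
  have h1 : mfderiv (𝓡 d) (𝓡 d'') (g ∘ h) x =
      (mfderiv (𝓡 d') (𝓡 d'') g (h x)).comp (mfderiv (𝓡 d) (𝓡 d') h x) :=
    mfderiv_comp x (hg (h x)) (hh x)
  exact congrArg (fun T : EE d →L[ℝ] EE d'' => T v) h1

/-- Chain rule for a semiconjugacy. -/
theorem dd_semi {q : M → N} {g : M → M} {g₁ : N → N} (hq : MDifferentiable (𝓡 d) (𝓡 d') q)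
    (hg : MDifferentiable (𝓡 d) (𝓡 d) g) (hg₁ : MDifferentiable (𝓡 d') (𝓡 d') g₁)
    (h : ∀ x, q (g x) = g₁ (q x)) (x : M) (v : EE d) :
    dd d d' q (g x) (dd d d g x v) = dd d' d' g₁ (q x) (dd d d' q x v) := by
  rw [← dd_comp hq hg, ← dd_comp hg₁ hq]
  have : q ∘ g = g₁ ∘ q := funext h
  rw [this]

omit [MetricSpace N] [ChartedSpace (EE d') N] in
theorem mem_congr {V : (y : N) → Submodule ℝ (EE d')} {y y' : N} (h : y = y') {w : EE d'}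
    (hw : w ∈ V y') : w ∈ V y := by
  subst h
  exact hw

end

section

variable {d d' : ℕ} {M N : Type*} [MetricSpace M] [ChartedSpace (EE d) M]
  [IsManifold (𝓡 d) ∞ M] [MetricSpace N] [ChartedSpace (EE d') N] [IsManifold (𝓡 d') ∞ N]

theorem rnorm_congr (γ : RMetric (EE d) M) {y y' : M} (h : y = y') (w : EE d) :
    rnorm γ y w = rnorm γ y' w := by
  subst h
  rfl

theorem continuous_comp_rnorm (γ : RMetric (EE d') N) {q : M → N}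
    (hq : ContMDiff (𝓡 d) (𝓡 d') ∞ q) :
    Continuous fun v : TangentBundle (𝓡 d) M => rnorm γ (q v.1) (dd d d' q v.1 v.2) :=
  (continuous_rnorm γ).comp (hq.continuous_tangentMap (by simp))

theorem isClosed_comap {q : M → N} (hq : ContMDiff (𝓡 d) (𝓡 d') ∞ q) {V : TFamily (EE d') N}
    {Λ : Set N} (hV : ClosedOver V Λ) :
    IsClosed {v : TangentBundle (𝓡 d) M | q v.1 ∈ Λ ∧ (dd d d' q v.1 v.2 : EE d') ∈ V (q v.1)} :=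
  hV.preimage (hq.continuous_tangentMap (by simp))

end

section

variable {d₁ d₂ d : ℕ} {N₁ N₂ M : Type*} [MetricSpace N₁] [ChartedSpace (EE d₁) N₁]
  [IsManifold (𝓡 d₁) ∞ N₁] [MetricSpace N₂] [ChartedSpace (EE d₂) N₂]
  [IsManifold (𝓡 d₂) ∞ N₂] [MetricSpace M] [ChartedSpace (EE d) M] [IsManifold (𝓡 d) ∞ M]

variable (Φ : Diffeomorph (𝓡 d) ((𝓡 d₁).prod (𝓡 d₂)) M (N₁ × N₂) ∞)

/-- First coordinate. -/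
def q1 (x : M) : N₁ := (Φ x).1

/-- Second coordinate. -/
def q2 (x : M) : N₂ := (Φ x).2

omit [IsManifold (𝓡 d₁) ∞ N₁] [IsManifold (𝓡 d₂) ∞ N₂] [IsManifold (𝓡 d) ∞ M] in
theorem q1_smooth : ContMDiff (𝓡 d) (𝓡 d₁) ∞ (q1 Φ) := contMDiff_fst.comp Φ.contMDiff

omit [IsManifold (𝓡 d₁) ∞ N₁] [IsManifold (𝓡 d₂) ∞ N₂] [IsManifold (𝓡 d) ∞ M] in
theorem q2_smooth : ContMDiff (𝓡 d) (𝓡 d₂) ∞ (q2 Φ) := contMDiff_snd.comp Φ.contMDiff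

theorem q1_diff : MDifferentiable (𝓡 d) (𝓡 d₁) (q1 Φ) := (q1_smooth Φ).mdifferentiable (by simp)

theorem q2_diff : MDifferentiable (𝓡 d) (𝓡 d₂) (q2 Φ) := (q2_smooth Φ).mdifferentiable (by simp)

theorem mfderiv_eq (x : M) (v : EE d) :
    (mfderiv (𝓡 d) ((𝓡 d₁).prod (𝓡 d₂)) Φ x v : EE d₁ × EE d₂) =
      (dd d d₁ (q1 Φ) x v, dd d d₂ (q2 Φ) x v) := by
  have h := mfderiv_prodMk (q1_diff Φ x) (q2_diff Φ x)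
  have h1 : (fun x => (q1 Φ x, q2 Φ x)) = (Φ : M → N₁ × N₂) := rfl
  rw [h1] at h
  exact congrArg (fun T : EE d →L[ℝ] EE d₁ × EE d₂ => T v) h

/-- The derivative of `Φ` as an equivalence of the model spaces. -/
def dΦ (x : M) : EE d ≃L[ℝ] EE d₁ × EE d₂ :=
  Φ.mfderivToContinuousLinearEquiv (by simp) x

theorem dΦ_apply (x : M) (v : EE d) :
    dΦ Φ x v = (dd d d₁ (q1 Φ) x v, dd d d₂ (q2 Φ) x v) := by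
  rw [← mfderiv_eq]
  rfl

theorem exists_vec (x : M) (a : EE d₁) (b : EE d₂) :
    ∃ v : EE d, dd d d₁ (q1 Φ) x v = a ∧ dd d d₂ (q2 Φ) x v = b := by
  refine ⟨(dΦ Φ x).symm (a, b), ?_⟩
  have h := dΦ_apply Φ x ((dΦ Φ x).symm (a, b))
  rw [ContinuousLinearEquiv.apply_symm_apply] at h
  exact ⟨(congrArg Prod.fst h).symm, (congrArg Prod.snd h).symm⟩

theorem vec_eq (x : M) {v w : EE d} (h1 : dd d d₁ (q1 Φ) x v = dd d d₁ (q1 Φ) x w)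
    (h2 : dd d d₂ (q2 Φ) x v = dd d d₂ (q2 Φ) x w) : v = w := by
  apply (dΦ Φ x).injective
  rw [dΦ_apply, dΦ_apply, h1, h2]

/-- The product of two families of subspaces. -/
def fam (V₁ : TFamily (EE d₁) N₁) (V₂ : TFamily (EE d₂) N₂) : TFamily (EE d) M := fun x =>
  (Submodule.comap (dd d d₁ (q1 Φ) x : EE d →ₗ[ℝ] EE d₁) (V₁ (q1 Φ x)) ⊓
    Submodule.comap (dd d d₂ (q2 Φ) x : EE d →ₗ[ℝ] EE d₂) (V₂ (q2 Φ x)) : Submodule ℝ (EE d))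

omit [IsManifold (𝓡 d₁) ∞ N₁] [IsManifold (𝓡 d₂) ∞ N₂] [IsManifold (𝓡 d) ∞ M] in
theorem mem_fam {V₁ : TFamily (EE d₁) N₁} {V₂ : TFamily (EE d₂) N₂} {x : M} {v : EE d} :
    v ∈ fam Φ V₁ V₂ x ↔ (dd d d₁ (q1 Φ) x v : EE d₁) ∈ V₁ (q1 Φ x) ∧
      (dd d d₂ (q2 Φ) x v : EE d₂) ∈ V₂ (q2 Φ x) := Iff.rfl

theorem closedOver_fam {V₁ : TFamily (EE d₁) N₁} {V₂ : TFamily (EE d₂) N₂} {Λ₁ : Set N₁}
    {Λ₂ : Set N₂} (h₁ : ClosedOver V₁ Λ₁) (h₂ : ClosedOver V₂ Λ₂) {Λ : Set M} (hΛ : IsClosed Λ)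
    (hΛ' : ∀ x ∈ Λ, q1 Φ x ∈ Λ₁ ∧ q2 Φ x ∈ Λ₂) : ClosedOver (fam Φ V₁ V₂) Λ := by
  have e : {v : TangentBundle (𝓡 d) M | v.1 ∈ Λ ∧ v.2 ∈ fam Φ V₁ V₂ v.1} =
      {v | v.1 ∈ Λ} ∩ ({v | q1 Φ v.1 ∈ Λ₁ ∧ (dd d d₁ (q1 Φ) v.1 v.2 : EE d₁) ∈ V₁ (q1 Φ v.1)} ∩
        {v | q2 Φ v.1 ∈ Λ₂ ∧ (dd d d₂ (q2 Φ) v.1 v.2 : EE d₂) ∈ V₂ (q2 Φ v.1)}) := by
    ext v
    constructor
    · rintro ⟨h, h'⟩
      have h'' := (mem_fam Φ).1 h'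
      exact ⟨h, ⟨(hΛ' _ h).1, h''.1⟩, ⟨(hΛ' _ h).2, h''.2⟩⟩
    · rintro ⟨h, ⟨-, h1⟩, ⟨-, h2⟩⟩
      exact ⟨h, (mem_fam Φ).2 ⟨h1, h2⟩⟩
  show IsClosed {v : TangentBundle (𝓡 d) M | v.1 ∈ Λ ∧ v.2 ∈ fam Φ V₁ V₂ v.1}
  rw [e]
  refine (hΛ.preimage (FiberBundle.continuous_proj (EE d)
    (fun x : M => TangentSpace (𝓡 d) x))).inter ?_
  exact (isClosed_comap (q1_smooth Φ) h₁).inter (isClosed_comap (q2_smooth Φ) h₂)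

theorem isCompl_fam {V₁ W₁ : TFamily (EE d₁) N₁} {V₂ W₂ : TFamily (EE d₂) N₂} {x : M}
    (h₁ : IsCompl (V₁ (q1 Φ x)) (W₁ (q1 Φ x))) (h₂ : IsCompl (V₂ (q2 Φ x)) (W₂ (q2 Φ x))) :
    IsCompl (fam Φ V₁ V₂ x) (fam Φ W₁ W₂ x) :=
  isCompl_lin (E := EE d) (E₁ := EE d₁) (E₂ := EE d₂) (dd d d₁ (q1 Φ) x : EE d →ₗ[ℝ] EE d₁)
    (dd d d₂ (q2 Φ) x : EE d →ₗ[ℝ] EE d₂) (fun _ _ h h' => vec_eq Φ x h h')
    (fun a b => exists_vec Φ x a b) h₁ h₂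

theorem invariant_fam {g : M → M} {g₁ : N₁ → N₁} {g₂ : N₂ → N₂}
    (hg : MDifferentiable (𝓡 d) (𝓡 d) g) (hg₁ : MDifferentiable (𝓡 d₁) (𝓡 d₁) g₁)
    (hg₂ : MDifferentiable (𝓡 d₂) (𝓡 d₂) g₂) (e₁ : ∀ x, q1 Φ (g x) = g₁ (q1 Φ x))
    (e₂ : ∀ x, q2 Φ (g x) = g₂ (q2 Φ x)) {V₁ : TFamily (EE d₁) N₁} {V₂ : TFamily (EE d₂) N₂}
    {Λ₁ : Set N₁} {Λ₂ : Set N₂} (h₁ : InvariantOver g₁ V₁ Λ₁) (h₂ : InvariantOver g₂ V₂ Λ₂)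
    {Λ : Set M} (hΛ' : ∀ x ∈ Λ, q1 Φ x ∈ Λ₁ ∧ q2 Φ x ∈ Λ₂) :
    InvariantOver g (fam Φ V₁ V₂) Λ := by
  intro x hx v hv
  have hv' := (mem_fam Φ).1 hv
  have i1 := h₁ _ (hΛ' x hx).1 _ hv'.1
  have i2 := h₂ _ (hΛ' x hx).2 _ hv'.2
  refine (mem_fam Φ).2 ⟨?_, ?_⟩
  · have h := dd_semi (q1_diff Φ) hg hg₁ e₁ x v
    refine mem_congr (V := fun y => V₁ y) (e₁ x) ?_
    show (dd d d₁ (q1 Φ) (g x) (dd d d g x v) : EE d₁) ∈ V₁ (g₁ (q1 Φ x))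
    rw [h]
    exact i1
  · have h := dd_semi (q2_diff Φ) hg hg₂ e₂ x v
    refine mem_congr (V := fun y => V₂ y) (e₂ x) ?_
    show (dd d d₂ (q2 Φ) (g x) (dd d d g x v) : EE d₂) ∈ V₂ (g₂ (q2 Φ x))
    rw [h]
    exact i2

theorem contracted_fam (γ : RMetric (EE d) M) (γ₁ : RMetric (EE d₁) N₁) (γ₂ : RMetric (EE d₂) N₂)
    {β β₁ β₂ : ℝ} (hβ : 0 < β) 
    (b0 : ∀ (x : M) (v : EE d), rnorm γ x v ≤ β * (rnorm γ₁ (q1 Φ x) (dd d d₁ (q1 Φ) x v) +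
      rnorm γ₂ (q2 Φ x) (dd d d₂ (q2 Φ) x v)))
    (b1 : ∀ (x : M) (v : EE d), rnorm γ₁ (q1 Φ x) (dd d d₁ (q1 Φ) x v) ≤ β₁ * rnorm γ x v)
    (b2 : ∀ (x : M) (v : EE d), rnorm γ₂ (q2 Φ x) (dd d d₂ (q2 Φ) x v) ≤ β₂ * rnorm γ x v)
    {g : M → M} {g₁ : N₁ → N₁} {g₂ : N₂ → N₂}
    (hg : MDifferentiable (𝓡 d) (𝓡 d) g) (hg₁ : MDifferentiable (𝓡 d₁) (𝓡 d₁) g₁)
    (hg₂ : MDifferentiable (𝓡 d₂) (𝓡 d₂) g₂) (e₁ : ∀ x, q1 Φ (g x) = g₁ (q1 Φ x))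
    (e₂ : ∀ x, q2 Φ (g x) = g₂ (q2 Φ x)) {V₁ : TFamily (EE d₁) N₁} {V₂ : TFamily (EE d₂) N₂}
    {Λ₁ : Set N₁} {Λ₂ : Set N₂} {c₁ μ₁ c₂ μ₂ : ℝ} (hc₁ : 0 < c₁) (hμ₁ : 0 < μ₁) (hc₂ : 0 < c₂)
    (hμ₂ : 0 < μ₂) (h₁ : ContractedOver g₁ γ₁ V₁ Λ₁ c₁ μ₁)
    (h₂ : ContractedOver g₂ γ₂ V₂ Λ₂ c₂ μ₂)
    {Λ : Set M} (hΛ' : ∀ x ∈ Λ, q1 Φ x ∈ Λ₁ ∧ q2 Φ x ∈ Λ₂) :
    ContractedOver g γ (fam Φ V₁ V₂) Λ (β * (c₁ * β₁ + c₂ * β₂)) (max μ₁ μ₂) := by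
  intro x hx v hv n
  have hv' := (mem_fam Φ).1 hv
  have i1 := h₁ _ (hΛ' x hx).1 _ hv'.1 n
  have i2 := h₂ _ (hΛ' x hx).2 _ hv'.2 n
  have en1 : ∀ y, q1 Φ (g^[n] y) = g₁^[n] (q1 Φ y) :=
    (show Function.Semiconj (q1 Φ) g g₁ from e₁).iterate_right n
  have en2 : ∀ y, q2 Φ (g^[n] y) = g₂^[n] (q2 Φ y) :=
    (show Function.Semiconj (q2 Φ) g g₂ from e₂).iterate_right n
  have k1 := dd_semi (q1_diff Φ) (OmegaStab.FinHyp.mdiff_iter hg n)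
    (OmegaStab.FinHyp.mdiff_iter hg₁ n) en1 x v
  have k2 := dd_semi (q2_diff Φ) (OmegaStab.FinHyp.mdiff_iter hg n)
    (OmegaStab.FinHyp.mdiff_iter hg₂ n) en2 x v
  have s0 := b0 (g^[n] x) (dd d d g^[n] x v)
  rw [k1, k2, rnorm_congr γ₁ (en1 x), rnorm_congr γ₂ (en2 x)] at s0
  have i1' : rnorm γ₁ (g₁^[n] (q1 Φ x)) (dd d₁ d₁ g₁^[n] (q1 Φ x) (dd d d₁ (q1 Φ) x v)) ≤
      c₁ * μ₁ ^ n * rnorm γ₁ (q1 Φ x) (dd d d₁ (q1 Φ) x v) := i1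
  have i2' : rnorm γ₂ (g₂^[n] (q2 Φ x)) (dd d₂ d₂ g₂^[n] (q2 Φ x) (dd d d₂ (q2 Φ) x v)) ≤
      c₂ * μ₂ ^ n * rnorm γ₂ (q2 Φ x) (dd d d₂ (q2 Φ) x v) := i2
  have hn0 : 0 ≤ rnorm γ x v := Real.sqrt_nonneg _
  have p1 : μ₁ ^ n ≤ (max μ₁ μ₂) ^ n := pow_le_pow_left₀ hμ₁.le (le_max_left _ _) n
  have p2 : μ₂ ^ n ≤ (max μ₁ μ₂) ^ n := pow_le_pow_left₀ hμ₂.le (le_max_right _ _) n
  have m0 : 0 < (max μ₁ μ₂) ^ n := pow_pos (lt_of_lt_of_le hμ₁ (le_max_left _ _)) n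
  have j1 : c₁ * μ₁ ^ n * rnorm γ₁ (q1 Φ x) (dd d d₁ (q1 Φ) x v) ≤
      c₁ * (max μ₁ μ₂) ^ n * (β₁ * rnorm γ x v) := by
    apply mul_le_mul (mul_le_mul_of_nonneg_left p1 hc₁.le) (b1 x v) (Real.sqrt_nonneg _)
    positivity
  have j2 : c₂ * μ₂ ^ n * rnorm γ₂ (q2 Φ x) (dd d d₂ (q2 Φ) x v) ≤
      c₂ * (max μ₁ μ₂) ^ n * (β₂ * rnorm γ x v) := by
    apply mul_le_mul (mul_le_mul_of_nonneg_left p2 hc₂.le) (b2 x v) (Real.sqrt_nonneg _)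
    positivity
  show rnorm γ (g^[n] x) (dd d d g^[n] x v) ≤ _
  calc rnorm γ (g^[n] x) (dd d d g^[n] x v) ≤ _ := s0
    _ ≤ β * (c₁ * (max μ₁ μ₂) ^ n * (β₁ * rnorm γ x v) +
        c₂ * (max μ₁ μ₂) ^ n * (β₂ * rnorm γ x v)) := by
      apply mul_le_mul_of_nonneg_left _ hβ.le
      exact add_le_add (i1'.trans j1) (i2'.trans j2)
    _ = β * (c₁ * β₁ + c₂ * β₂) * (max μ₁ μ₂) ^ n * rnorm γ x v := by ring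

end

end ProdHyp

section Product

variable {d₁ d₂ d : ℕ} {N₁ N₂ M : Type*} [MetricSpace N₁] [ChartedSpace (EE d₁) N₁]
  [IsManifold (𝓡 d₁) ∞ N₁] [MetricSpace N₂] [ChartedSpace (EE d₂) N₂]
  [IsManifold (𝓡 d₂) ∞ N₂] [MetricSpace M] [ChartedSpace (EE d) M] [IsManifold (𝓡 d) ∞ M]
  [CompactSpace N₁] [CompactSpace N₂] [CompactSpace M] {r : ℕ∞}

open ProdHyp

/-! GE12 -/
theorem product_hyperbolic (hr : 1 ≤ r)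
    (Φ : Diffeomorph (𝓡 d) ((𝓡 d₁).prod (𝓡 d₂)) M (N₁ × N₂) ∞) (f : Dyn d M r)
    (f₁ : Dyn d₁ N₁ r) (f₂ : Dyn d₂ N₂ r) (hf : ∀ x, Φ (f x) = (f₁ (Φ x).1, f₂ (Φ x).2))
    {Λ₁ : Set N₁} {Λ₂ : Set N₂} (h₁ : HyperbolicStructure (EE d₁) f₁ f₁.symm Λ₁)
    (h₂ : HyperbolicStructure (EE d₂) f₂ f₂.symm Λ₂) {Λ : Set M} (hΛ : IsClosed Λ)
    (hΛ' : ∀ x ∈ Λ, (Φ x).1 ∈ Λ₁ ∧ (Φ x).2 ∈ Λ₂) (hinv : ∀ x ∈ Λ, f x ∈ Λ)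
    (hinv' : ∀ x ∈ Λ, f.symm x ∈ Λ) : HyperbolicStructure (EE d) f f.symm Λ := by
  obtain ⟨Es₁, Eu₁, cs₁, cu₁, ic₁, is₁, iu₁, γ₁, c₁, μ₁, hc₁, hμ₁, hμ₁', ks₁, ku₁⟩ := h₁
  obtain ⟨Es₂, Eu₂, cs₂, cu₂, ic₂, is₂, iu₂, γ₂, c₂, μ₂, hc₂, hμ₂, hμ₂', ks₂, ku₂⟩ := h₂
  obtain ⟨γ⟩ := OmegaStab.exists_metric d M
  have e₁ : ∀ x, q1 Φ (f x) = f₁ (q1 Φ x) := fun x => congrArg Prod.fst (hf x)
  have e₂ : ∀ x, q2 Φ (f x) = f₂ (q2 Φ x) := fun x => congrArg Prod.snd (hf x)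
  have e₁' : ∀ x, q1 Φ (f.symm x) = f₁.symm (q1 Φ x) := by
    intro x
    have h := e₁ (f.symm x)
    rw [f.apply_symm_apply] at h
    rw [h, f₁.symm_apply_apply]
  have e₂' : ∀ x, q2 Φ (f.symm x) = f₂.symm (q2 Φ x) := by
    intro x
    have h := e₂ (f.symm x)
    rw [f.apply_symm_apply] at h
    rw [h, f₂.symm_apply_apply]
  have hfd := OmegaStab.FinHyp.mdiff hr f
  have hfd₁ := OmegaStab.FinHyp.mdiff hr f₁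
  have hfd₂ := OmegaStab.FinHyp.mdiff hr f₂
  have hfs := OmegaStab.FinHyp.mdiff hr f.symm
  have hfs₁ := OmegaStab.FinHyp.mdiff hr f₁.symm
  have hfs₂ := OmegaStab.FinHyp.mdiff hr f₂.symm
  have n1 := continuous_comp_rnorm γ₁ (q1_smooth Φ)
  have n2 := continuous_comp_rnorm γ₂ (q2_smooth Φ)
  have o1 : ∀ (x : M) (v : EE d) (t : ℝ), rnorm γ₁ (q1 Φ x) (dd d d₁ (q1 Φ) x (t • v)) =
      |t| * rnorm γ₁ (q1 Φ x) (dd d d₁ (q1 Φ) x v) := by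
    intro x v t
    rw [map_smul]
    exact rnorm_smul γ₁ _ _ _
  have o2 : ∀ (x : M) (v : EE d) (t : ℝ), rnorm γ₂ (q2 Φ x) (dd d d₂ (q2 Φ) x (t • v)) =
      |t| * rnorm γ₂ (q2 Φ x) (dd d d₂ (q2 Φ) x v) := by
    intro x v t
    rw [map_smul]
    exact rnorm_smul γ₂ _ _ _
  have o3 : ∀ (x : M) (v : EE d) (t : ℝ), rnorm γ₁ (q1 Φ x) (dd d d₁ (q1 Φ) x (t • v)) +
      rnorm γ₂ (q2 Φ x) (dd d d₂ (q2 Φ) x (t • v)) = |t| *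
        (rnorm γ₁ (q1 Φ x) (dd d d₁ (q1 Φ) x v) + rnorm γ₂ (q2 Φ x) (dd d d₂ (q2 Φ) x v)) := by
    intro x v t
    rw [o1, o2]
    ring
  have o4 : ∀ (x : M) (v : EE d), v ≠ 0 →
      0 < rnorm γ₁ (q1 Φ x) (dd d d₁ (q1 Φ) x v) + rnorm γ₂ (q2 Φ x) (dd d d₂ (q2 Φ) x v) := by
    intro x v hv
    have z1 : 0 ≤ rnorm γ₁ (q1 Φ x) (dd d d₁ (q1 Φ) x v) := Real.sqrt_nonneg _
    have z2 : 0 ≤ rnorm γ₂ (q2 Φ x) (dd d d₂ (q2 Φ) x v) := Real.sqrt_nonneg _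
    by_cases hw : dd d d₁ (q1 Φ) x v = 0
    · by_cases hw' : dd d d₂ (q2 Φ) x v = 0
      · exfalso
        apply hv
        exact vec_eq Φ x (by rw [hw, map_zero]) (by rw [hw', map_zero])
      · have := rnorm_pos γ₂ (q2 Φ x) (dd d d₂ (q2 Φ) x v) hw'
        linarith
    · have := rnorm_pos γ₁ (q1 Φ x) (dd d d₁ (q1 Φ) x v) hw
      linarith
  obtain ⟨β₁, hβ₁, b1⟩ := exists_comparison
    (fun v : TangentBundle (𝓡 d) M => rnorm γ₁ (q1 Φ v.1) (dd d d₁ (q1 Φ) v.1 v.2))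
    (fun v : TangentBundle (𝓡 d) M => rnorm γ v.1 v.2) n1 (continuous_rnorm γ)
    (fun x v t => o1 x v t) (fun x v t => rnorm_smul γ x v t) (fun x v hv => rnorm_pos γ x v hv)
  obtain ⟨β₂, hβ₂, b2⟩ := exists_comparison
    (fun v : TangentBundle (𝓡 d) M => rnorm γ₂ (q2 Φ v.1) (dd d d₂ (q2 Φ) v.1 v.2))
    (fun v : TangentBundle (𝓡 d) M => rnorm γ v.1 v.2) n2 (continuous_rnorm γ)
    (fun x v t => o2 x v t) (fun x v t => rnorm_smul γ x v t) (fun x v hv => rnorm_pos γ x v hv)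
  obtain ⟨β, hβ, b0⟩ := exists_comparison
    (fun v : TangentBundle (𝓡 d) M => rnorm γ v.1 v.2)
    (fun v : TangentBundle (𝓡 d) M => rnorm γ₁ (q1 Φ v.1) (dd d d₁ (q1 Φ) v.1 v.2) +
      rnorm γ₂ (q2 Φ v.1) (dd d d₂ (q2 Φ) v.1 v.2)) (continuous_rnorm γ) (n1.add n2)
    (fun x v t => rnorm_smul γ x v t)
    (fun x v t => o3 x v t) (fun x v hv => o4 x v hv)
  refine ⟨fam Φ Es₁ Es₂, fam Φ Eu₁ Eu₂, closedOver_fam Φ cs₁ cs₂ hΛ hΛ',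
    closedOver_fam Φ cu₁ cu₂ hΛ hΛ', ?_, ?_, ?_, γ, β * (c₁ * β₁ + c₂ * β₂), max μ₁ μ₂,
    by positivity, lt_of_lt_of_le hμ₁ (le_max_left _ _), max_lt hμ₁' hμ₂', ?_, ?_⟩
  · intro x hx
    exact isCompl_fam Φ (ic₁ _ (hΛ' x hx).1) (ic₂ _ (hΛ' x hx).2)
  · exact invariant_fam Φ hfd hfd₁ hfd₂ e₁ e₂ is₁ is₂ hΛ'
  · exact invariant_fam Φ hfd hfd₁ hfd₂ e₁ e₂ iu₁ iu₂ hΛ'
  · exact contracted_fam Φ γ γ₁ γ₂ hβ b0 b1 b2 hfd hfd₁ hfd₂ e₁ e₂ hc₁ hμ₁ hc₂ hμ₂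
      ks₁ ks₂ hΛ'
  · exact contracted_fam Φ γ γ₁ γ₂ hβ b0 b1 b2 hfs hfs₁ hfs₂ e₁' e₂' hc₁ hμ₁ hc₂ hμ₂
      ku₁ ku₂ hΛ'

end Product

end Pool.Agent.OmegaPS
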