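import Pool.Agent.Work.MP_814647_an.PS.Geo

/-!
# Products: symbol sequences from return sequences (item 28)
-/

open Set Filter Topology Function
open scoped Manifold ContDiff

noncomputable section

namespace Pool.Agent.OmegaPS

section Top

variable {B : Type*} [MetricSpace B]

/-- Near a non-periodic point the first `k` iterates stay away. -/
theorem SwitchRet.far {A : B → B} (hA : Continuous A) {q : B} (hq : q ∉ periodicPts A) (k : ℕ)
    {ρ₀ : ℝ} (hρ₀ : 0 < ρ₀) : ∃ ρ : ℝ, 0 < ρ ∧ 2 * ρ < ρ₀ ∧ ∀ w, dist w q ≤ 2 * ρ →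
      ∀ j, 1 ≤ j → j ≤ k → 2 * ρ < dist (A^[j] w) q := by
  have hne : ∀ j, 1 ≤ j → 0 < dist (A^[j] q) q := by
    intro j hj
    apply dist_pos.2
    intro h
    exact hq ⟨j, hj, h⟩
  have hev : ∀ᶠ ρ in 𝓝[>] (0 : ℝ), ∀ j ∈ Finset.Icc 1 k, ∀ w, dist w q ≤ 2 * ρ →
      2 * ρ < dist (A^[j] w) q := by
    rw [Filter.eventually_all_finset]
    intro j hj
    have hj1 : 1 ≤ j := (Finset.mem_Icc.1 hj).1
    have hc : Continuous fun w => dist (A^[j] w) q := (hA.iterate j).dist continuous_const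
    have h1 : ∀ᶠ w in 𝓝 q, dist (A^[j] q) q / 2 < dist (A^[j] w) q := by
      apply hc.continuousAt.eventually
      exact lt_mem_nhds (half_lt_self (hne j hj1))
    rw [Metric.eventually_nhds_iff] at h1
    obtain ⟨δ, hδ, h2⟩ := h1
    have hpos : 0 < min (δ / 4) (dist (A^[j] q) q / 4) := by
      have := hne j hj1
      positivity
    filter_upwards [Ioo_mem_nhdsGT hpos] with ρ hρ w hw
    have h3 : ρ < δ / 4 := hρ.2.trans_le (min_le_left _ _)
    have h4 : ρ < dist (A^[j] q) q / 4 := hρ.2.trans_le (min_le_right _ _)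
    have h5 : dist w q < δ := by linarith [hρ.1]
    have h6 := h2 h5
    linarith
  have hev2 : ∀ᶠ ρ in 𝓝[>] (0 : ℝ), 0 < ρ ∧ 2 * ρ < ρ₀ := by
    have hpos : 0 < ρ₀ / 2 := by positivity
    filter_upwards [Ioo_mem_nhdsGT hpos] with ρ hρ
    exact ⟨hρ.1, by linarith [hρ.2]⟩
  obtain ⟨ρ, h1, h2, h3⟩ := (hev.and hev2).exists
  exact ⟨ρ, h2, h3, fun w hw j hj hjk => h1 j (Finset.mem_Icc.2 ⟨hj, hjk⟩) w hw⟩

/-! GE5 (item 28) -/
theorem switchable_of_returnSeq {A : B → B} (hA : Continuous A) (h : ReturnSeq A) :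
    Switchable A := by
  obtain ⟨q, ρ₀, hρ₀, hq, hret⟩ := h
  intro k
  obtain ⟨ρ, hρ, hρρ, hfar⟩ := SwitchRet.far hA hq k hρ₀
  obtain ⟨n₀', hn₀'⟩ := hret ρ hρ (by linarith)
  obtain ⟨n₀, hn1, hn₀⟩ : ∃ n₀ : ℕ, 1 ≤ n₀ ∧ ∀ (p : ℕ) (g : ℕ → ℕ), 0 < p → (∀ i < p, n₀ ≤ g i) →
      ∃ x : ℕ → B, x p = x 0 ∧ ∀ i < p, dist (x i) q ≤ ρ ∧ A^[g i] (x i) = x (i + 1) ∧
        ∀ t, 0 < t → t < g i → ρ₀ ≤ dist (A^[t] (x i)) q :=
    ⟨max 1 n₀', le_max_left _ _, fun p g hp hg =>
      hn₀' p g hp fun i hi => (le_max_right _ _).trans (hg i hi)⟩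
  have hci : ∀ n, Continuous fun x => dist (A^[n] x) q :=
    fun n => (hA.iterate n).dist continuous_const
  have hc0 : Continuous fun x : B => dist x q := continuous_id.dist continuous_const
  refine ⟨2 * n₀ + 2 * k + 1,
    fun i => {x | dist x q ≤ ρ} ∩ {x | dist (A^[n₀ + i] x) q ≤ ρ},
    {x | 2 * ρ ≤ dist x q} ∪ {x | ∀ i : Fin k, 2 * ρ ≤ dist (A^[n₀ + i] x) q}, by omega, ?_, ?_,
    ?_, ?_, ?_⟩
  · intro i
    exact (isClosed_le hc0 continuous_const).inter (isClosed_le (hci _) continuous_const)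
  · apply (isClosed_le continuous_const hc0).union
    rw [Set.ofPred_forall]
    exact isClosed_iInter fun i => isClosed_le continuous_const (hci _)
  · -- disjoint symbols
    have key : ∀ i j : Fin k, i < j → ∀ x, dist (A^[n₀ + i] x) q ≤ ρ →
        dist (A^[n₀ + j] x) q ≤ ρ → False := by
      intro i j hij x h1 h2
      have hij' : (i : ℕ) < j := hij
      have h3 := hfar (A^[n₀ + i] x) (by linarith) (j - i) (by omega) (by omega)
      rw [← Function.iterate_add_apply] at h3
      have e : (j : ℕ) - i + (n₀ + i) = n₀ + j := by omega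
      rw [e] at h3
      linarith
    intro i j hij
    rw [Set.disjoint_left]
    intro x hx hx'
    rcases lt_or_gt_of_ne hij with h | h
    · exact key i j h x hx.2 hx'.2
    · exact key j i h x hx'.2 hx.2
  · intro i
    rw [Set.disjoint_left]
    rintro x hx (hx' | hx')
    · have h1 : 2 * ρ ≤ dist x q := hx'
      have h2 : dist x q ≤ ρ := hx.1
      linarith
    · have h1 : 2 * ρ ≤ dist (A^[n₀ + i] x) q := hx' i
      have h2 : dist (A^[n₀ + i] x) q ≤ ρ := hx.2
      linarith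
  · intro p s n hp hs hn
    -- gaps
    set g : ℕ → ℕ := fun t => if t % 2 = 0 then n₀ + s (t / 2) else
      n (t / 2) - n₀ - s (t / 2) with hg
    have hg0 : ∀ r, g (2 * r) = n₀ + s r := by
      intro r
      simp [hg]
    have hg1 : ∀ r, g (2 * r + 1) = n r - n₀ - s r := by
      intro r
      have h1 : (2 * r + 1) % 2 = 1 := by omega
      have h2 : (2 * r + 1) / 2 = r := by omega
      simp only [hg, h1, h2]
      simp
    have hgn : ∀ i < 2 * p, n₀ ≤ g i := by
      intro i hi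
      rcases Nat.even_or_odd' i with ⟨r, rfl | rfl⟩
      · rw [hg0]
        omega
      · rw [hg1]
        have h1 := hn r (by omega)
        have h2 := (s r).2
        omega
    obtain ⟨x', hx'p, hx'⟩ := hn₀ (2 * p) g (by omega) hgn
    refine ⟨fun r => x' (2 * r), hx'p, ?_⟩
    intro r hr
    have h0 := hx' (2 * r) (by omega)
    have h1 := hx' (2 * r + 1) (by omega)
    rw [hg0] at h0
    rw [hg1] at h1
    have hnr := hn r hr
    have hsr := (s r).2
    have e1 : n r = (n r - n₀ - s r) + (n₀ + s r) := by omega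
    refine ⟨⟨h0.1, ?_⟩, ?_, ?_⟩
    · show dist (A^[n₀ + s r] (x' (2 * r))) q ≤ ρ
      rw [h0.2.1]
      exact h1.1
    · show A^[n r] (x' (2 * r)) = x' (2 * (r + 1))
      rw [e1, Function.iterate_add_apply, h0.2.1, h1.2.1]
      rfl
    · intro t ht htn
      rcases lt_trichotomy t (n₀ + s r) with hlt | heq | hgt
      · left
        have := h0.2.2 t ht hlt
        show 2 * ρ ≤ _
        linarith
      · right
        intro i
        rw [heq, h0.2.1]
        have := h1.2.2 (n₀ + i) (by omega) (by omega)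
        linarith
      · left
        have e2 : t = (t - (n₀ + s r)) + (n₀ + s r) := by omega
        have := h1.2.2 (t - (n₀ + s r)) (by omega) (by omega)
        show 2 * ρ ≤ dist (A^[t] (x' (2 * r))) q
        rw [e2, Function.iterate_add_apply, h0.2.1]
        linarith

end Top

end Pool.Agent.OmegaPS
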