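import Pool.Agent.Work.MP_814647_an.PS.Geo2

open Set Filter Topology Function
open scoped Manifold ContDiff

noncomputable section

namespace Pool.Agent.OmegaPS

namespace SwitchMod

section

variable {B : Type*} [MetricSpace B]

/-- small closed balls around a point are contained in a neighbourhood -/
theorem ev_ball (a : B) (U : Set B) (hU : U ∈ 𝓝 a) (K : ℝ) (hK : 0 < K) :
    ∀ᶠ ρ in 𝓝[>] (0 : ℝ), ∀ x, dist x a ≤ K * ρ → x ∈ U := by
  obtain ⟨ε, hε, hsub⟩ := Metric.nhds_basis_closedBall.mem_iff.1 hU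
  have h1 : ∀ᶠ ρ in 𝓝[>] (0 : ℝ), ρ < ε / K :=
    mem_nhdsWithin_of_mem_nhds (Iio_mem_nhds (by positivity))
  filter_upwards [h1] with ρ hρ x hx
  apply hsub
  rw [Metric.mem_closedBall]
  refine hx.trans ?_
  rw [lt_div_iff₀ hK] at hρ
  linarith

theorem ev_lt (d : ℝ) (hd : 0 < d) (K : ℝ) (hK : 0 < K) :
    ∀ᶠ ρ in 𝓝[>] (0 : ℝ), K * ρ < d := by
  have h1 : ∀ᶠ ρ in 𝓝[>] (0 : ℝ), ρ < d / K :=
    mem_nhdsWithin_of_mem_nhds (Iio_mem_nhds (by positivity))
  filter_upwards [h1] with ρ hρ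
  rw [lt_div_iff₀ hK] at hρ
  linarith

/-- points of the orbit of a non-periodic point are different -/
theorem orb_ne (A : B ≃ₜ B) (q : B) (hq : q ∉ periodicPts A) (s l : ℕ) (hl : 0 < l) :
    A^[l] (A^[s] q) ≠ A^[s] q := by
  intro h
  apply hq
  refine ⟨l, hl, ?_⟩
  have h1 : A^[s] (A^[l] q) = A^[s] q := by
    rw [← Function.iterate_add_apply, Nat.add_comm, Function.iterate_add_apply]
    exact h
  exact (A.injective.iterate s) h1

theorem symm_iter (A : B ≃ₜ B) (s : ℕ) (x : B) : A.symm^[s] (A^[s] x) = x :=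
  (Function.LeftInverse.iterate A.symm_apply_apply s) x

/-- one return -/
theorem one_step (A : B → B) (q : B) (ρ₀ : ℝ) (u u' : B) (γ τ : ℕ) (h1 : A^[γ] u = u')
    (h2 : ∀ t, 0 < t → t < γ → ρ₀ ≤ dist (A^[t] u) q) (hτ : 0 < τ)
    (hd : dist (A^[τ] u) q < ρ₀) :
    τ = γ ∨ (γ < τ ∧ dist (A^[τ - γ] u') q < ρ₀) := by
  rcases lt_trichotomy τ γ with h | h | h
  · exact absurd hd (not_lt.2 (h2 τ hτ h))
  · exact Or.inl h
  · refine Or.inr ⟨h, ?_⟩
    rw [← h1, ← Function.iterate_add_apply, Nat.sub_add_cancel h.le]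
    exact hd

end

/-- the gaps -/
def Gp (c w n₀ i s : ℕ) : ℕ := c + w * (n₀ + 1) + w * (i * w + s)

theorem Gp_inj (c w n₀ : ℕ) (hw : 0 < w) (i s i' s' : ℕ) (hs : s < w) (hs' : s' < w)
    (h : Gp c w n₀ i s = Gp c w n₀ i' s') : i = i' ∧ s = s' := by
  unfold Gp at h
  have h1 : w * (i * w + s) = w * (i' * w + s') := by omega
  have h2 : i * w + s = i' * w + s' := Nat.eq_of_mul_eq_mul_left hw h1
  have h3 : (i * w + s) / w = (i' * w + s') / w := by rw [h2]
  have h4 : (i * w + s) % w = (i' * w + s') % w := by rw [h2]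
  rw [Nat.mul_comm i w, Nat.mul_comm i' w, Nat.mul_add_div hw, Nat.mul_add_div hw,
    Nat.div_eq_of_lt hs, Nat.div_eq_of_lt hs'] at h3
  rw [Nat.mul_comm i w, Nat.mul_comm i' w, Nat.mul_add_mod, Nat.mul_add_mod,
    Nat.mod_eq_of_lt hs, Nat.mod_eq_of_lt hs'] at h4
  exact ⟨by omega, h4⟩

theorem Gp_mod (c w n₀ i s : ℕ) : Gp c w n₀ i s ≡ c [MOD w] := by
  unfold Gp
  have : c + w * (n₀ + 1) + w * (i * w + s) = c + w * (n₀ + 1 + (i * w + s)) := by ring
  rw [this]
  exact Nat.ModEq.symm (by simp [Nat.ModEq])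

theorem Gp_lt (c w n₀ k i s : ℕ) (hw : 0 < w) (hi : i < k) (hs : s < w) :
    Gp c w n₀ i s < Gp c w n₀ k 0 := by
  unfold Gp
  have h1 : i * w + s < k * w + 0 := by
    have : (i + 1) * w ≤ k * w := Nat.mul_le_mul_right w hi
    nlinarith
  have h2 : w * (i * w + s) < w * (k * w + 0) := Nat.mul_lt_mul_of_pos_left h1 hw
  omega

theorem Gp_ge (c w n₀ i s : ℕ) (hw : 0 < w) : n₀ + 1 ≤ Gp c w n₀ i s := by
  unfold Gp
  have : 1 * (n₀ + 1) ≤ w * (n₀ + 1) := Nat.mul_le_mul_right _ hw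
  omega

/-- the phases -/
def ph (c w : ℕ) (n : ℕ → ℕ) : ℕ → ℕ
  | 0 => 0
  | q + 1 => (ph c w n q + n q + 2 * c * (w - 1)) % w

theorem ph_lt (c w : ℕ) (n : ℕ → ℕ) (hw : 0 < w) (q : ℕ) : ph c w n q < w := by
  cases q with
  | zero => exact hw
  | succ q => exact Nat.mod_lt _ hw

theorem ph_succ (c w : ℕ) (n : ℕ → ℕ) (hw : 0 < w) (q : ℕ) :
    ph c w n (q + 1) + 2 * c ≡ ph c w n q + n q [MOD w] := by
  have h1 : ph c w n (q + 1) ≡ ph c w n q + n q + 2 * c * (w - 1) [MOD w] := Nat.mod_modEq _ _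
  have h2 := h1.add_right (2 * c)
  refine h2.trans ?_
  obtain ⟨w', rfl⟩ : ∃ w', w = w' + 1 := ⟨w - 1, by omega⟩
  have : ph c (w' + 1) n q + n q + 2 * c * (w' + 1 - 1) + 2 * c =
      ph c (w' + 1) n q + n q + (w' + 1) * (2 * c) := by
    rw [Nat.add_sub_cancel]; ring
  rw [this]
  simp [Nat.ModEq]

theorem ph_sum (c w : ℕ) (n : ℕ → ℕ) (hw : 0 < w) (q : ℕ) :
    ph c w n q + 2 * c * q ≡ ∑ i ∈ Finset.range q, n i [MOD w] := by
  induction q with
  | zero => simp [ph, Nat.ModEq]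
  | succ q ih =>
    rw [Finset.sum_range_succ]
    have h1 := (ph_succ c w n hw q).add_right (2 * c * q)
    have h2 := ih.add_right (n q)
    have e1 : ph c w n (q + 1) + 2 * c * (q + 1) = ph c w n (q + 1) + 2 * c + 2 * c * q := by ring
    have e2 : ph c w n q + n q + 2 * c * q = ph c w n q + 2 * c * q + n q := by ring
    rw [e1]
    rw [e2] at h1
    exact h1.trans h2

theorem ph_period (c w : ℕ) (n : ℕ → ℕ) (hw : 0 < w) (p : ℕ) (hp : w ∣ p)
    (hn : w ∣ ∑ i ∈ Finset.range p, n i) : ph c w n p = 0 := by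
  have h1 := ph_sum c w n hw p
  obtain ⟨p', rfl⟩ := hp
  have h2 : ph c w n (w * p') + 2 * c * (w * p') ≡ ph c w n (w * p') [MOD w] := by
    have : 2 * c * (w * p') = w * (2 * c * p') := by ring
    rw [this]
    simp [Nat.ModEq]
  have h3 : ph c w n (w * p') ≡ 0 [MOD w] :=
    (h2.symm.trans h1).trans ((Nat.modEq_zero_iff_dvd).2 hn)
  exact Nat.eq_zero_of_dvd_of_lt ((Nat.modEq_zero_iff_dvd).1 h3) (ph_lt c w n hw _)

/-- the return times -/
def gg (c w n₀ : ℕ) (σ n : ℕ → ℕ) (i : ℕ) : ℕ :=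
  if i % 2 = 0 then Gp c w n₀ (σ (i / 2)) (ph c w n (i / 2))
  else ph c w n (i / 2) + n (i / 2) - ph c w n (i / 2 + 1) -
    Gp c w n₀ (σ (i / 2)) (ph c w n (i / 2))

theorem gg_even (c w n₀ : ℕ) (σ n : ℕ → ℕ) (q : ℕ) :
    gg c w n₀ σ n (2 * q) = Gp c w n₀ (σ q) (ph c w n q) := by
  unfold gg
  rw [if_pos (by omega), show 2 * q / 2 = q by omega]

theorem gg_odd (c w n₀ : ℕ) (σ n : ℕ → ℕ) (q : ℕ) :
    gg c w n₀ σ n (2 * q + 1) = ph c w n q + n q - ph c w n (q + 1) -
      Gp c w n₀ (σ q) (ph c w n q) := by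
  unfold gg
  rw [if_neg (by omega), show (2 * q + 1) / 2 = q by omega]

end SwitchMod

open SwitchMod in
theorem switchableMod_of_returnSeqMod {B : Type*} [MetricSpace B] (A : B ≃ₜ B)
    (h : ReturnSeqMod A) : SwitchableMod A := by
  obtain ⟨q, ρ₀, w, c, hρ₀, hw, hq, hret⟩ := h
  refine ⟨w, hw, fun k => ?_⟩
  have hcont : ∀ l : ℕ, Continuous (A^[l]) := fun l => A.continuous.iterate l
  have hconts : ∀ l : ℕ, Continuous (A.symm^[l]) := fun l => A.symm.continuous.iterate l
  -- the choice of ρ'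
  have c1 : ∀ᶠ ρ in 𝓝[>] (0 : ℝ), ∀ s ∈ Finset.range w, ∀ s' ∈ Finset.range w, s ≠ s' →
      4 * ρ < dist (A^[s] q) (A^[s'] q) := by
    rw [Filter.eventually_all_finset]
    intro s _
    rw [Filter.eventually_all_finset]
    intro s' _
    by_cases hss : s = s'
    · exact Filter.Eventually.of_forall fun ρ h => absurd hss h
    · have : 0 < dist (A^[s] q) (A^[s'] q) := by
        rw [dist_pos]
        rcases lt_or_gt_of_ne hss with h1 | h1
        · have := orb_ne A q hq s (s' - s) (by omega)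
          rw [← Function.iterate_add_apply, Nat.sub_add_cancel h1.le] at this
          exact this.symm
        · have := orb_ne A q hq s' (s - s') (by omega)
          rw [← Function.iterate_add_apply, Nat.sub_add_cancel h1.le] at this
          exact this
      filter_upwards [ev_lt _ this 4 (by norm_num)] with ρ hρ _
      exact hρ
  have c2 : ∀ᶠ ρ in 𝓝[>] (0 : ℝ), ∀ s ∈ Finset.range w, ∀ x, dist x (A^[s] q) ≤ 2 * ρ →
      x ∈ {x | dist (A.symm^[s] x) q < ρ₀} := by
    rw [Filter.eventually_all_finset]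
    intro s _
    apply ev_ball _ _ _ 2 (by norm_num)
    apply IsOpen.mem_nhds
    · exact isOpen_lt ((hconts s).dist continuous_const) continuous_const
    · simp only [mem_ofPred_eq]
      rw [symm_iter, dist_self]
      exact hρ₀
  have c3 : ∀ᶠ ρ in 𝓝[>] (0 : ℝ), ∀ s ∈ Finset.range w, ∀ l ∈ Finset.range (w * w * k + 1),
      0 < l → ∀ x, dist x (A^[s] q) ≤ 2 * ρ → 2 * ρ < dist (A^[l] x) (A^[s] q) := by
    rw [Filter.eventually_all_finset]
    intro s _
    rw [Filter.eventually_all_finset]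
    intro l _
    by_cases hl : 0 < l
    · have hd : 0 < dist (A^[l] (A^[s] q)) (A^[s] q) := dist_pos.2 (orb_ne A q hq s l hl)
      set dd := dist (A^[l] (A^[s] q)) (A^[s] q) with hdd
      have h1 : {x | dd / 2 < dist (A^[l] x) (A^[s] q)} ∈ 𝓝 (A^[s] q) := by
        apply IsOpen.mem_nhds
        · exact isOpen_lt continuous_const ((hcont l).dist continuous_const)
        · simp only [mem_ofPred_eq]
          rw [← hdd]; linarith
      filter_upwards [ev_ball _ _ h1 2 (by norm_num), ev_lt (dd / 2) (by positivity) 2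
        (by norm_num)] with ρ h2 h3 _ x hx
      have : dd / 2 < dist (A^[l] x) (A^[s] q) := h2 x hx
      linarith
    · exact Filter.Eventually.of_forall fun ρ h => absurd h hl
  obtain ⟨ρ', hr1, hr2, hr3, hρ'⟩ := (c1.and (c2.and (c3.and self_mem_nhdsWithin))).exists
  have hρ' : 0 < ρ' := hρ'
  -- the choice of ρ
  have c4 : ∀ᶠ ρ in 𝓝[>] (0 : ℝ), ∀ s ∈ Finset.range w, ∀ x, dist x q ≤ 1 * ρ →
      x ∈ {x | dist (A^[s] x) (A^[s] q) < ρ'} := by
    rw [Filter.eventually_all_finset]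
    intro s _
    apply ev_ball _ _ _ 1 (by norm_num)
    apply IsOpen.mem_nhds
    · exact isOpen_lt ((hcont s).dist continuous_const) continuous_const
    · simp only [mem_ofPred_eq]
      rw [dist_self]
      exact hρ'
  obtain ⟨ρ, hr4, hρρ₀, hρ⟩ := (c4.and ((ev_lt ρ₀ hρ₀ 1 (by norm_num)).and
    self_mem_nhdsWithin)).exists
  have hρ : 0 < ρ := hρ
  obtain ⟨n₁, hn₁⟩ := hret ρ hρ (by linarith)
  set n₀ := max n₁ (w + 1) with hn₀
  set Gm := Gp c w n₀ k 0 with hGm
  -- the sets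
  refine ⟨2 * Gm + 2 * w + n₀ + 2,
    fun i => ⋃ s ∈ Finset.range w, {x | dist x (A^[s] q) ≤ ρ' ∧
      dist (A^[Gp c w n₀ i.1 s] x) (A^[s] q) ≤ ρ'},
    ⋂ i : Fin k, ⋂ s : Fin w, {x | 2 * ρ' ≤ dist x (A^[s.1] q) ∨
      2 * ρ' ≤ dist (A^[Gp c w n₀ i.1 s.1] x) (A^[s.1] q)}, by omega, ?_, ?_, ?_, ?_, ?_⟩
  · intro i
    refine Set.Finite.isClosed_biUnion (Finset.finite_toSet _) fun s _ => ?_
    exact (isClosed_le (continuous_id.dist continuous_const) continuous_const).inter
      (isClosed_le ((hcont _).dist continuous_const) continuous_const)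
  · refine isClosed_iInter fun i => isClosed_iInter fun s => ?_
    exact (isClosed_le continuous_const (continuous_id.dist continuous_const)).union
      (isClosed_le continuous_const ((hcont _).dist continuous_const))
  · intro i j hij
    rw [Set.disjoint_left]
    intro x hx hx'
    simp only [mem_iUnion, mem_ofPred_eq, Finset.mem_range, exists_prop] at hx hx'
    obtain ⟨s, hs, h1, h2⟩ := hx
    obtain ⟨s', hs', h1', h2'⟩ := hx'
    have hss : s = s' := by
      by_contra hne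
      have h3 := hr1 s (Finset.mem_range.2 hs) s' (Finset.mem_range.2 hs') hne
      have h4 := dist_triangle_left (A^[s] q) (A^[s'] q) x
      linarith
    subst hss
    have aux : ∀ i j : Fin k, i.1 < j.1 → dist (A^[Gp c w n₀ i.1 s] x) (A^[s] q) ≤ ρ' →
        dist (A^[Gp c w n₀ j.1 s] x) (A^[s] q) ≤ ρ' → False := by
      intro i j hlt h2 h2'
      have e1 : Gp c w n₀ j.1 s = w * w * (j.1 - i.1) + Gp c w n₀ i.1 s := by
        obtain ⟨e, he⟩ : ∃ e, j.1 = i.1 + e := ⟨j.1 - i.1, by omega⟩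
        unfold Gp
        rw [he, Nat.add_sub_cancel_left]
        ring
      have h5 := hr3 s (Finset.mem_range.2 hs) (w * w * (j.1 - i.1)) (by
        rw [Finset.mem_range]
        have : w * w * (j.1 - i.1) ≤ w * w * k := Nat.mul_le_mul_left _ (by omega)
        omega) (by
        have : 0 < j.1 - i.1 := by omega
        positivity) _ (by linarith : dist (A^[Gp c w n₀ i.1 s] x) (A^[s] q) ≤ 2 * ρ')
      rw [← Function.iterate_add_apply, ← e1] at h5
      linarith
    rcases lt_or_gt_of_ne (fun h : i.1 = j.1 => hij (Fin.ext h)) with hlt | hlt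
    · exact aux i j hlt h2 h2'
    · exact aux j i hlt h2' h2
  · intro i
    rw [Set.disjoint_left]
    intro x hx hx'
    simp only [mem_iUnion, mem_ofPred_eq, Finset.mem_range, exists_prop] at hx
    obtain ⟨s, hs, h1, h2⟩ := hx
    simp only [mem_iInter, mem_ofPred_eq] at hx'
    have := hx' i ⟨s, hs⟩
    simp only at this
    rcases this with h3 | h3 <;> linarith
  · intro p σ n hp hwp hwn hσ hm
    have hphlt := ph_lt c w n hw
    have hphp := ph_period c w n hw p hwp hwn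
    have hbig : ∀ q < p, Gm + 2 * w + 2 ≤ gg c w n₀ (fun j => (σ j).1) n (2 * q + 1) := by
      intro j hj
      rw [gg_odd]
      have h1 := Gp_lt c w n₀ k (σ j).1 (ph c w n j) hw (σ j).2 (hphlt j)
      have h2 := hphlt (j + 1)
      have h3 := hm j hj
      omega
    have hsum : ∀ q < p, ph c w n (q + 1) + (gg c w n₀ (fun j => (σ j).1) n (2 * q) +
        gg c w n₀ (fun j => (σ j).1) n (2 * q + 1)) = ph c w n q + n q := by
      intro j hj
      rw [gg_odd, gg_even]
      have h1 := Gp_lt c w n₀ k (σ j).1 (ph c w n j) hw (σ j).2 (hphlt j)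
      have h2 := hphlt (j + 1)
      have h3 := hm j hj
      omega
    obtain ⟨v, hv0, hv⟩ := hn₁ (2 * p) (gg c w n₀ (fun j => (σ j).1) n) (by omega) (by
      intro i hi
      obtain ⟨j, hj | hj⟩ : ∃ j, i = 2 * j ∨ i = 2 * j + 1 := ⟨i / 2, by omega⟩
      · subst hj
        rw [gg_even]
        refine ⟨?_, Gp_mod c w n₀ _ _⟩
        have := Gp_ge c w n₀ (σ j).1 (ph c w n j) hw
        omega
      · subst hj
        have hj : j < p := by omega
        refine ⟨?_, ?_⟩
        · rw [gg_odd]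
          have h1 := Gp_lt c w n₀ k (σ j).1 (ph c w n j) hw (σ j).2 (hphlt j)
          have h2 := hphlt (j + 1)
          have h3 := hm j hj
          omega
        · have h1 := hsum j hj
          have h2 := ph_succ c w n hw j
          rw [← h1, gg_even] at h2
          have h3 : 2 * c ≡ Gp c w n₀ (σ j).1 (ph c w n j) +
              gg c w n₀ (fun j => (σ j).1) n (2 * j + 1) [MOD w] :=
            Nat.ModEq.add_left_cancel' _ h2
          have h4 : c + c ≡ c + gg c w n₀ (fun j => (σ j).1) n (2 * j + 1) [MOD w] := by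
            have := (Gp_mod c w n₀ (σ j).1 (ph c w n j)).add_right
              (gg c w n₀ (fun j => (σ j).1) n (2 * j + 1))
            rw [← two_mul]
            exact h3.trans this
          exact (Nat.ModEq.add_left_cancel' _ h4).symm)
    refine ⟨fun j => A^[ph c w n j] (v (2 * j)), ?_, ?_⟩
    · simp only [hphp, hv0, Nat.mul_zero]
      rfl
    intro j hj
    obtain ⟨hva, hvb, hvc⟩ := hv (2 * j) (by omega)
    obtain ⟨hva', hvb', hvc'⟩ := hv (2 * j + 1) (by omega)
    rw [show 2 * j + 1 + 1 = 2 * (j + 1) by ring] at hvb'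
    refine ⟨?_, ?_, ?_⟩
    · simp only [mem_iUnion, mem_ofPred_eq, Finset.mem_range, exists_prop]
      refine ⟨ph c w n j, hphlt j, ?_, ?_⟩
      · have := hr4 _ (Finset.mem_range.2 (hphlt j)) (v (2 * j)) (by linarith)
        simp only [mem_ofPred_eq] at this
        exact this.le
      · rw [gg_even] at hvb
        rw [← Function.iterate_add_apply, Nat.add_comm, Function.iterate_add_apply, hvb]
        have := hr4 _ (Finset.mem_range.2 (hphlt j)) (v (2 * j + 1)) (by linarith)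
        simp only [mem_ofPred_eq] at this
        exact this.le
    · rw [← Function.iterate_add_apply, Nat.add_comm (n j), ← hsum j hj,
        Function.iterate_add_apply, Nat.add_comm (gg c w n₀ (fun j => (σ j).1) n (2 * j)),
        Function.iterate_add_apply, hvb, hvb']
    · intro t ht0 ht1
      simp only [mem_iInter, mem_ofPred_eq]
      intro i s
      by_contra hcon
      rw [not_or, not_le, not_le] at hcon
      obtain ⟨hc1, hc2⟩ := hcon
      -- the predecessor
      obtain ⟨u0, γ0, hu0, hfree0, hγ0⟩ : ∃ (u0 : B) (γ0 : ℕ), A^[γ0] u0 = v (2 * j) ∧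
          (∀ t, 0 < t → t < γ0 → ρ₀ ≤ dist (A^[t] u0) q) ∧ Gm + 2 * w + 2 ≤ γ0 := by
        by_cases hj0 : j = 0
        · obtain ⟨_, h2, h3⟩ := hv (2 * (p - 1) + 1) (by omega)
          refine ⟨v (2 * (p - 1) + 1), _, ?_, h3, hbig (p - 1) (by omega)⟩
          rw [h2, hj0, show 2 * (p - 1) + 1 + 1 = 2 * p by omega, hv0]
        · obtain ⟨_, h2, h3⟩ := hv (2 * (j - 1) + 1) (by omega)
          refine ⟨v (2 * (j - 1) + 1), _, ?_, h3, hbig (j - 1) (by omega)⟩
          rw [h2, show 2 * (j - 1) + 1 + 1 = 2 * j by omega]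
      -- the successor
      obtain ⟨u4, γ4, hu3, hfree3, hfree4, hγ4⟩ : ∃ (u4 : B) (γ4 : ℕ),
          A^[Gp c w n₀ (σ (j + 1)).1 (ph c w n (j + 1))] (v (2 * (j + 1))) = u4 ∧
          (∀ t, 0 < t → t < Gp c w n₀ (σ (j + 1)).1 (ph c w n (j + 1)) →
            ρ₀ ≤ dist (A^[t] (v (2 * (j + 1)))) q) ∧
          (∀ t, 0 < t → t < γ4 → ρ₀ ≤ dist (A^[t] u4) q) ∧ Gm + 2 * w + 2 ≤ γ4 := by
        by_cases hjp : j + 1 = p
        · obtain ⟨_, h2, h3⟩ := hv (2 * 0) (by omega)
          obtain ⟨_, _, h3'⟩ := hv (2 * 0 + 1) (by omega)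
          rw [gg_even] at h2 h3
          refine ⟨v (2 * 0 + 1), _, ?_, ?_, h3', hbig 0 (by omega)⟩
          · rw [hjp, hσ, hphp, hv0]
            exact h2
          · rw [hjp, hσ, hphp, hv0]
            exact h3
        · obtain ⟨_, h2, h3⟩ := hv (2 * (j + 1)) (by omega)
          obtain ⟨_, _, h3'⟩ := hv (2 * (j + 1) + 1) (by omega)
          rw [gg_even] at h2 h3
          exact ⟨v (2 * (j + 1) + 1), _, h2, h3, h3', hbig (j + 1) (by omega)⟩
      -- the visit times
      have visit : ∀ τ, 0 < τ → τ < γ0 + gg c w n₀ (fun j => (σ j).1) n (2 * j) +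
          gg c w n₀ (fun j => (σ j).1) n (2 * j + 1) +
          Gp c w n₀ (σ (j + 1)).1 (ph c w n (j + 1)) + γ4 → dist (A^[τ] u0) q < ρ₀ →
          τ = γ0 ∨ τ = γ0 + gg c w n₀ (fun j => (σ j).1) n (2 * j) ∨
          τ = γ0 + gg c w n₀ (fun j => (σ j).1) n (2 * j) +
            gg c w n₀ (fun j => (σ j).1) n (2 * j + 1) ∨
          τ = γ0 + gg c w n₀ (fun j => (σ j).1) n (2 * j) +
            gg c w n₀ (fun j => (σ j).1) n (2 * j + 1) +
            Gp c w n₀ (σ (j + 1)).1 (ph c w n (j + 1)) := by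
        intro τ hτ0 hτ1 hd
        rcases one_step A q ρ₀ u0 _ γ0 τ hu0 hfree0 hτ0 hd with h | ⟨h, hd1⟩
        · exact Or.inl h
        rcases one_step A q ρ₀ _ _ _ _ hvb hvc (by omega) hd1 with h' | ⟨h', hd2⟩
        · right; left; omega
        rcases one_step A q ρ₀ _ _ _ _ hvb' hvc' (by omega) hd2 with h'' | ⟨h'', hd3⟩
        · right; right; left; omega
        rcases one_step A q ρ₀ _ _ _ _ hu3 hfree3 (by omega) hd3 with h3 | ⟨h3, hd4⟩
        · right; right; right; omega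
        exfalso
        exact absurd hd4 (not_lt.2 (hfree4 _ (by omega) (by omega)))
      have hs := s.2
      have hphj := hphlt j
      have hphj1 := hphlt (j + 1)
      have hG := Gp_lt c w n₀ k i.1 s.1 hw i.2 s.2
      have hG0 := Gp_ge c w n₀ i.1 s.1 hw
      have hGj := Gp_lt c w n₀ k (σ j).1 (ph c w n j) hw (σ j).2 (hphlt j)
      have hs1 := hsum j hj
      have hb1 := hbig j hj
      have hnj := hm j hj
      rw [gg_even] at visit hs1
      have z1 : A^[t] (A^[ph c w n j] (v (2 * j))) =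
          A^[s.1] (A^[γ0 + ph c w n j + t - s.1] u0) := by
        rw [← hu0, ← Function.iterate_add_apply, ← Function.iterate_add_apply,
          ← Function.iterate_add_apply]
        congr 1
        omega
      have z2 : A^[Gp c w n₀ i.1 s.1] (A^[t] (A^[ph c w n j] (v (2 * j)))) =
          A^[s.1] (A^[γ0 + ph c w n j + t - s.1 + Gp c w n₀ i.1 s.1] u0) := by
        rw [z1, ← Function.iterate_add_apply, ← Function.iterate_add_apply,
          ← Function.iterate_add_apply]
        congr 1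
        omega
      have d1 : dist (A^[γ0 + ph c w n j + t - s.1] u0) q < ρ₀ := by
        have h1 : dist (A.symm^[s.1] _) q < ρ₀ := hr2 s.1 (Finset.mem_range.2 hs) _ hc1.le
        rwa [z1, symm_iter] at h1
      have d2 : dist (A^[γ0 + ph c w n j + t - s.1 + Gp c w n₀ i.1 s.1] u0) q < ρ₀ := by
        have h1 : dist (A.symm^[s.1] _) q < ρ₀ := hr2 s.1 (Finset.mem_range.2 hs) _ hc2.le
        rwa [z2, symm_iter] at h1
      have v1 := visit _ (by omega) (by omega) d1
      have v2 := visit _ (by omega) (by omega) d2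
      have key1 : Gp c w n₀ i.1 s.1 = Gp c w n₀ (σ j).1 (ph c w n j) → s.1 = ph c w n j :=
        fun h => (Gp_inj c w n₀ hw _ _ _ _ hs hphj h).2
      have key2 : Gp c w n₀ i.1 s.1 = Gp c w n₀ (σ (j + 1)).1 (ph c w n (j + 1)) →
          s.1 = ph c w n (j + 1) :=
        fun h => (Gp_inj c w n₀ hw _ _ _ _ hs hphj1 h).2
      omega

end Pool.Agent.OmegaPS
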