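import Pool.Agent.Work.MP_814647_an.Final
import Pool.Agent.Work.MP_814647_an.Metric
import Pool.Agent.Work.MP_814647_an.Bd.B06
import Pool.Agent.Work.MP_814647_an.PS.SwitchMod
import Pool.Agent.Work.MP_814647_an.Bd.B09
import Pool.Agent.Work.MP_814647_an.Bd.B08
import Pool.Agent.Work.MP_814647_an.PS.ProdHyp
import Pool.Agent.Work.MP_814647_an.Bd.B01

/-!
# Omega-stable products: the assembly
-/

open Set Filter Topology Function
open scoped Manifold ContDiff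

noncomputable section

namespace Pool.Agent.OmegaPS

open Pool.Agent.OmegaStab (EE Dyn IsFam PP HypAt crTopology HypLin ConjClass)
open Pool.Agent.OmegaStab.FinHyp (der)
open Pool.Agent.OmegaStability

section Assembly

variable {d₁ d₂ d : ℕ} {N₁ N₂ M : Type*} [MetricSpace N₁] [ChartedSpace (EE d₁) N₁]
  [IsManifold (𝓡 d₁) ∞ N₁] [MetricSpace N₂] [ChartedSpace (EE d₂) N₂]
  [IsManifold (𝓡 d₂) ∞ N₂] [MetricSpace M] [ChartedSpace (EE d) M] [IsManifold (𝓡 d) ∞ M]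
  [CompactSpace N₁] [CompactSpace N₂] [CompactSpace M] {r : ℕ∞}

/-- The consequences for the first factor. -/
theorem factor (hr : 1 ≤ r)
    (Φ : Diffeomorph (𝓡 d) ((𝓡 d₁).prod (𝓡 d₂)) M (N₁ × N₂) ∞) (f : Dyn d M r)
    (f₁ : Dyn d₁ N₁ r) (f₂ : Dyn d₂ N₂ r) (hf : ∀ x, Φ (f x) = (f₁ (Φ x).1, f₂ (Φ x).2))
    (hst : OmegaStable f) (h₂ : HasTransverseHomoclinicOrbit (EE d₂) f₂ f₂.symm) :
    ChainClosed f₁ ∧ HyperbolicStructure (EE d₁) f₁ f₁.symm (Omega f₁) ∧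
      ((Omega f₁).Infinite → HasTransverseHomoclinicOrbit (EE d₁) f₁ f₁.symm) := by
  have hst' : OmegaStab.OmegaStable f := hst
  obtain ⟨𝒩, h𝒩, hf𝒩, hNconj⟩ := hst'
  have hconj : OmegaStab.ConjClass 𝒩 := OmegaStab.conjClass_of_conj hNconj
  have hhyp := OmegaStab.hypAt_of_conjClass hr h𝒩 hconj
  obtain ⟨At⟩ := exists_atlas (d := d₁) (N := N₁) (r := r)
  have hsw : SwitchableMod f₂ :=
    switchableMod_of_returnSeqMod f₂.toHomeomorph (returnSeqMod_of_homoclinic hr f₂ h₂)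
  have key : ∀ p : ℕ, 1 ≤ p → ∃ (ε : ℝ) (_ : 0 < ε) (G : GeoSys At f₁ ε) (C δ : ℝ) (n₀ : ℕ),
      1 ≤ C ∧ 0 < δ ∧ ChainUH G.S p C δ n₀ := by
    intro p hp
    obtain ⟨ε₀, m, hε₀, hm, hstar⟩ :=
      star_of_switchableMod hr Φ f f₁ f₂ hf h𝒩 hf𝒩 hhyp At hsw (p + 4)
    have hε : 0 < min ε₀ (1 / 2) := lt_min hε₀ (by norm_num)
    obtain ⟨G⟩ := exists_geoSys hr At f₁ hε (min_le_right _ _)
    obtain ⟨C, δ, n₀, hC, hδ, h⟩ := chain_uh G.S hp hm (hstar _ (min_le_left _ _) G)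
    exact ⟨_, hε, G, C, δ, n₀, hC, hδ, h⟩
  have hcc : ChainClosed f₁ := by
    intro p hp x hx
    obtain ⟨ε, hε, G, C, δ, n₀, hC, hδ, h⟩ := key p hp
    rw [Metric.mem_closure_iff]
    intro ε₁ hε₁
    obtain ⟨ε₂, n₁, hε₂, hcl⟩ := closing hr hε G hp hC hδ h (half_pos (half_pos hε₁))
    obtain ⟨y, n, hy, hn, hj⟩ := hx (min ε₂ (ε₁ / 4)) (lt_min hε₂ (by positivity)) n₁
    obtain ⟨u, hu, hud⟩ := hcl y n hn fun q => (hj q).trans (min_le_left _ _)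
    refine ⟨u, hu, ?_⟩
    have h1 := hy.trans (min_le_right _ _)
    rw [dist_comm]
    calc dist u x ≤ dist u (y 0) + dist (y 0) x := dist_triangle _ _ _
      _ ≤ ε₁ / 2 / 2 + ε₁ / 4 := add_le_add hud h1
      _ < ε₁ := by linarith
  have hhs : HyperbolicStructure (EE d₁) f₁ f₁.symm (Omega f₁) := by
    obtain ⟨ε, hε, G, C, δ, n₀, hC, hδ, h⟩ := key 1 le_rfl
    obtain ⟨γ⟩ := OmegaStab.exists_metric d₁ N₁
    obtain ⟨C', hC', hv⟩ := vecHyp_of_chainUH hr hε G hC hδ h γ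
    refine hyperbolicStructure_of_vecHyp hr f₁ γ (isClosed_Omega _) ?_ ?_ hC' hδ hv
    · intro x hx
      exact (Omega_map f₁.toHomeomorph hx).1
    · intro x hx
      exact (Omega_map f₁.toHomeomorph hx).2
  refine ⟨hcc, hhs, fun hinf => ?_⟩
  obtain ⟨ε, hε, G, C, δ, n₀, hC, hδ, h⟩ := key 2 one_le_two
  exact exists_homoclinic f₁ hinf (omega_subset_of_chainClosed f₁.continuous hcc) hhs
    (fun ε₁ hε₁ => closing_track hr hε G one_le_two hC hδ h hε₁)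
    (expansive hr f₁ (isClosed_Omega _) (fun x hx => (Omega_map f₁.toHomeomorph hx).1)
      (fun x hx => (Omega_map f₁.toHomeomorph hx).2) hhs)

theorem axiomA_of (f : Dyn d M r) (h : ChainClosed f)
    (h' : HyperbolicStructure (EE d) f f.symm (Omega f)) :
    SatisfiesAxiomA (E := EE d) f ∧ HasNoCycles (E := EE d) f := by
  have h1 := omega_subset_of_chainClosed f.continuous h
  exact ⟨⟨h', h1⟩, noCycle_of_chainClosed f.toHomeomorph h h1⟩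

theorem main (hr : 1 ≤ r)
    (Φ : Diffeomorph (𝓡 d) ((𝓡 d₁).prod (𝓡 d₂)) M (N₁ × N₂) ∞) (f : Dyn d M r)
    (f₁ : Dyn d₁ N₁ r) (f₂ : Dyn d₂ N₂ r) (hf : ∀ x, Φ (f x) = (f₁ (Φ x).1, f₂ (Φ x).2))
    (hst : OmegaStable f) (h₂ : HasTransverseHomoclinicOrbit (EE d₂) f₂ f₂.symm) :
    (SatisfiesAxiomA (E := EE d₁) f₁ ∧ HasNoCycles (E := EE d₁) f₁) ∧
      (((Omega f₁).Infinite ∨ IsAnosovWithDensePeriodicPoints (EE d₂) f₂) →
        SatisfiesAxiomA (E := EE d) f ∧ HasNoCycles (E := EE d) f) := by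
  obtain ⟨hc₁, hh₁, hhom⟩ := factor hr Φ f f₁ f₂ hf hst h₂
  refine ⟨axiomA_of f₁ hc₁ hh₁, fun hor => ?_⟩
  have h2 : ∃ Λ₂ : Set N₂, ChainClosed f₂ ∧ HyperbolicStructure (EE d₂) f₂ f₂.symm Λ₂ ∧
      Omega f₂ ⊆ Λ₂ := by
    rcases hor with h | h
    · let Φ' : Diffeomorph (𝓡 d) ((𝓡 d₂).prod (𝓡 d₁)) M (N₂ × N₁) ∞ :=
        Φ.trans (Diffeomorph.prodComm (𝓡 d₁) (𝓡 d₂) N₁ N₂ ∞)
      have hΦ' : ∀ x, Φ' x = ((Φ x).2, (Φ x).1) := fun x => rfl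
      obtain ⟨a, b, -⟩ := factor hr Φ' f f₂ f₁ (fun x => by rw [hΦ', hΦ', hf]) hst (hhom h)
      exact ⟨_, a, b, le_rfl⟩
    · exact ⟨univ, chainClosed_of_dense h.2, h.1, subset_univ _⟩
  obtain ⟨Λ₂, hc₂, hh₂, hΛ₂⟩ := h2
  have hf' : ∀ x, Φ.toHomeomorph (f x) = (f₁ (Φ.toHomeomorph x).1, f₂ (Φ.toHomeomorph x).2) := hf
  refine axiomA_of f (product_chainClosed Φ.toHomeomorph f f₁ f₂ hf' hc₁ hc₂) ?_
  refine product_hyperbolic hr Φ f f₁ f₂ hf hh₁ hh₂ (isClosed_Omega _) ?_ ?_ ?_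
  · intro x hx
    have h3 := product_omega Φ.toHomeomorph f f₁ f₂ hf' x hx
    exact ⟨h3.1, hΛ₂ h3.2⟩
  · intro x hx
    exact (Omega_map f.toHomeomorph hx).1
  · intro x hx
    exact (Omega_map f.toHomeomorph hx).2

end Assembly

end Pool.Agent.OmegaPS
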